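import Pool.Agent.Lib.MP_5349a4_pr.M.Iface4
import Pool.Agent.Lib.MP_5349a4_pr.M.Base
import Pool.Agent.Lib.MP_5349a4_pr.M.H48.Two

/-!
# Two good invasions meet with small probability
-/

set_option autoImplicit false
open MeasureTheory Set
open scoped ENNReal NNReal

namespace Pool.Agent.Lib.MP_5349a4_pr.Hedge2

open H48

section Det
variable {d : ℕ}

/-- both invasions are good and they meet -/
def BadPair (th : ℕ → ℝ) (x y : Eu d) (n : ℕ) (P : Set (Eu d)) : Prop :=
  good th (insert y P) x n ∧ good th (insert x P) y n ∧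
    ¬ Disjoint (inv (insert y P) x n) (inv (insert x P) y n)

theorem occ_mono {th : ℕ → ℝ} {P : Set (Eu d)} {o : Eu d} {i n : ℕ} (h : i ≤ n)
    (f : Eu d → ℝ≥0∞) : occ th P o i f ≤ occ th P o n f := by
  unfold occ
  exact Finset.sum_le_sum_of_subset (Finset.range_subset_range.2 h)

theorem one_le_NN {th : ℕ → ℝ} {A B : Set (Eu d)} {x y : Eu d} {n i j : ℕ} (hi : i ≤ n)
    (hj : j ≤ n) (gA : good th A x i) (gB : good th B y j) {b p : Eu d} (hb : b ∈ inv A x i)
    (hp : p ∈ inv B y j) (hd : dist p b ≤ 4) : 1 ≤ NN th x y n A B := by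
  unfold NN
  refine le_trans ?_ (occ_mono (show i + 1 ≤ n + 1 by omega) _)
  refine le_trans ?_ (le_occ gA hb _)
  refine le_trans ?_ (occ_mono (show j + 1 ≤ n + 1 by omega) _)
  refine le_trans ?_ (le_occ gB hp _)
  rw [ind_of hd]

theorem mem_inv_self (Q : Set (Eu d)) (o : Eu d) (k : ℕ) : o ∈ inv Q o k := by
  induction k with
  | zero => exact rfl
  | succ k ih => exact Or.inl ih

/-- a point of `Q` close to the invaded set is seen by the label -/
theorem exists_near {Q : Set (Eu d)} (hQ : Q.Finite) {o : Eu d} {k : ℕ}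
    (hfin : (inv Q o k).Finite) {t : ℝ} (ht : t ≤ 2) (h : lab Q o k ≤ ENNReal.ofReal t) :
    ∃ q ∈ Q \ inv Q o k, Metric.infEDist q (inv Q o k) ≤ ENNReal.ofReal t ∧
      ∃ u ∈ inv Q o k, dist q u ≤ 2 := by
  unfold lab at h
  have hne : (Q \ inv Q o k).Nonempty := by
    by_contra hcon
    rw [Set.not_nonempty_iff_eq_empty] at hcon
    rw [hcon] at h
    simp at h
  obtain ⟨q, hq, hmin⟩ := Set.exists_min_image (Q \ inv Q o k)
    (fun q => Metric.infEDist q (inv Q o k)) (hQ.subset Set.sdiff_subset) hne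
  have h1 : Metric.infEDist q (inv Q o k) ≤ ENNReal.ofReal t := by
    refine le_trans ?_ h
    exact le_iInf₂ fun z hz => hmin z hz
  refine ⟨q, hq, h1, ?_⟩
  obtain ⟨u, hu, hu'⟩ := hfin.isCompact.exists_infEDist_eq_edist ⟨o, mem_inv_self Q o k⟩ q
  refine ⟨u, hu, ?_⟩
  have h2 : edist q u ≤ ENNReal.ofReal 2 := by
    rw [← hu']
    exact h1.trans (ENNReal.ofReal_le_ofReal ht)
  rw [edist_dist] at h2
  exact (ENNReal.ofReal_le_ofReal_iff (by norm_num)).1 h2

/-- Deterministic part: if both invasions are good and meet then there is a close pair. -/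
theorem one_le_of_badPair (hd : InvDStatement) {th : ℕ → ℝ} (hth : ∀ j, th j ≤ 2)
    {P P' : Set (Eu d)} (hP : P.Finite) (hP' : P'.Finite) {x y : Eu d} {n : ℕ}
    (hbad : BadPair th x y n P) :
    1 ≤ NN th x y n P ((P \ wet P x n) ∪ (P' ∩ wet P x n)) := by
  by_contra hcon
  set P'' := (P \ wet P x n) ∪ (P' ∩ wet P x n) with hP''def
  have hP'' : P''.Finite := (hP.subset Set.sdiff_subset).union (hP'.subset Set.inter_subset_left)
  have near : ∀ i j, i ≤ n → j ≤ n → good th P x i → good th P'' y j → ∀ b ∈ inv P x i,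
      ∀ p ∈ inv P'' y j, 4 < dist p b := by
    intro i j hi hj gi gj b hb p hp
    by_contra h
    exact hcon (one_le_NN hi hj gi gj hb hp (not_lt.1 h))
  obtain ⟨gx, gy, hdis⟩ := hbad
  have dP := hd d P P x (lf_of_finite hP) (lf_of_finite hP)
  have dP'' := hd d P'' P'' y (lf_of_finite hP'') (lf_of_finite hP'')
  -- the first invasion is good
  have claimA : ∀ i ≤ n, good th P x i := by
    intro i
    induction i with
    | zero => intro _ j hj; omega
    | succ i ih =>
      intro hi
      have gi := ih (by omega)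
      intro j hj
      rcases Nat.lt_succ_iff_lt_or_eq.1 hj with hj | rfl
      · exact gi j hj
      have w1 := (dP.2.2.2.1 th j hth gi).2
      have hfar := near j 0 (by omega) (Nat.zero_le n) gi (fun j hj => by omega)
      have hy : ∀ b ∈ inv P x j, 4 < dist y b := fun b hb => hfar b hb y (mem_inv_self P'' y 0)
      have q1 : (insert y P) ∩ wet P x j = P ∩ wet P x j := by
        ext e
        constructor
        · rintro ⟨he | he, hw⟩
          · exfalso
            obtain ⟨u, hu, hue⟩ := w1 hw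
            rw [he] at hue
            have := hy u hu
            linarith
          · exact ⟨he, hw⟩
        · rintro ⟨he, hw⟩
          exact ⟨Or.inr he, hw⟩
      have i1 := (hd d P (insert y P) x (lf_of_finite hP)
        (lf_of_finite (hP.insert y))).2.2.1 j q1
      have hinv : inv (insert y P) x j = inv P x j := i1.1 j le_rfl
      have hfin : (inv (insert y P) x j).Finite := by
        rw [hinv]
        exact (dP.1 j).2.2
      obtain ⟨q, hq, hq1, u, hu, hqu⟩ := exists_near (hP.insert y) hfin (hth j)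
        (gx j (by omega))
      rw [hinv] at hq hq1 hu
      have hqP : q ∈ P \ inv P x j := by
        refine ⟨?_, hq.2⟩
        rcases hq.1 with h1 | h1
        · exfalso
          rw [h1] at hqu
          have := hy u hu
          linarith
        · exact h1
      unfold lab
      exact (iInf₂_le q hqP).trans hq1
  have gA := claimA n le_rfl
  have wA := (dP.2.2.2.1 th n hth gA).2
  have claimB : ∀ j ≤ n, good th P'' y j := by
    intro i
    induction i with
    | zero => intro _ j hj; omega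
    | succ i ih =>
      intro hi
      have gi := ih (by omega)
      intro j hj
      rcases Nat.lt_succ_iff_lt_or_eq.1 hj with hj | rfl
      · exact gi j hj
      have w2 := (dP''.2.2.2.1 th j hth gi).2
      have hfar := near n j le_rfl (by omega) gA gi
      -- points within distance two of the second invasion
      have hout : ∀ e : Eu d, ∀ v ∈ inv P'' y j, dist e v ≤ 2 → e ∉ wet P x n ∧ e ≠ x := by
        intro e v hv hve
        refine ⟨fun hw => ?_, fun he => ?_⟩
        · obtain ⟨u, hu, hue⟩ := wA hw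
          have h1 := hfar u hu v hv
          have h2 := dist_triangle v e u
          rw [dist_comm v e] at h2
          linarith
        · rw [he] at hve
          have h1 := hfar x (mem_inv_self P x n) v hv
          rw [dist_comm] at h1
          linarith
      have q2 : (insert x P) ∩ wet P'' y j = P'' ∩ wet P'' y j := by
        ext e
        constructor
        · rintro ⟨he, hw⟩
          obtain ⟨v, hv, hve⟩ := w2 hw
          obtain ⟨h1, h2⟩ := hout e v hv hve
          rcases he with he | he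
          · exact absurd he h2
          · exact ⟨Or.inl ⟨he, h1⟩, hw⟩
        · rintro ⟨he, hw⟩
          obtain ⟨v, hv, hve⟩ := w2 hw
          obtain ⟨h1, h2⟩ := hout e v hv hve
          rcases he with he | he
          · exact ⟨Or.inr he.1, hw⟩
          · exact absurd he.2 h1
      have i2 := (hd d P'' (insert x P) y (lf_of_finite hP'')
        (lf_of_finite (hP.insert x))).2.2.1 j q2
      have hinv : inv (insert x P) y j = inv P'' y j := i2.1 j le_rfl
      have hfin : (inv (insert x P) y j).Finite := by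
        rw [hinv]
        exact (dP''.1 j).2.2
      obtain ⟨q, hq, hq1, u, hu, hqu⟩ := exists_near (hP.insert x) hfin (hth j)
        (gy j (by omega))
      rw [hinv] at hq hq1 hu
      obtain ⟨h1, h2⟩ := hout q u hu hqu
      have hqP : q ∈ P'' \ inv P'' y j := by
        refine ⟨?_, hq.2⟩
        rcases hq.1 with h3 | h3
        · exact absurd h3 h2
        · exact Or.inl ⟨h3, h1⟩
      unfold lab
      exact (iInf₂_le q hqP).trans hq1
  have gB := claimB n le_rfl
  have ht := target_of_good hd hth hP hP' gA gB (fun p hp q hq => near n n le_rfl le_rfl gA gB p hp q hq)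
  exact hdis ht.2.2

end Det

section Main

/-- BPB. Two good invasions started at distant points meet with small probability, uniformly
in the number of steps; each is good with probability bounded below. -/
theorem bpb (h1 : MRestrStatement) (h2 : MOpsStatement) (hprob : ProbStatement)
    (hres : ResampStatement) (hpos : PosStatement)
    (hgrow : GrowStatement) (hrot : RotMStatement) (hmunv : MunVStatement)
    (hpair : PairEStatement) (hd : InvDStatement) (hm : InvMStatement)
    (d : ℕ) (lam : ℝ≥0) (κ : ℕ) (A : ℝ≥0) (hC : Crit d lam κ A) :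
    ∃ (th : ℕ → ℝ) (p₀ : ℝ≥0) (C' : ℝ), (∀ j, th j ≤ 2) ∧ 0 < p₀ ∧ 0 < C' ∧
      (∀ (o : Eu d) (n : ℕ) (L : ℝ), 2 * n + 2 + ‖o‖ ≤ L →
        (p₀ : ℝ≥0∞) ≤ PL (leb lam (bal (0 : Eu d) L)) {ω | good th (pt ω) o n}) ∧
      ∀ (x y : Eu d) (n : ℕ) (L : ℝ), 40 ≤ ‖x - y‖ → 2 * n + 4 + ‖x‖ ≤ L →
        2 * n + 4 + ‖y‖ ≤ L →
        ∫⁻ ω, ind (BadPair th x y n (pt ω)) ∂PL (leb lam (bal (0 : Eu d) L))
          ≤ ENNReal.ofReal (C' / ‖x - y‖) := by
  have hκ := hC.hκ
  have hdκ := hC.hd
  have hκ2 : 1 ≤ κ ^ 2 := Nat.one_le_pow _ _ hκ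
  have hd1 : 1 ≤ d := by omega
  obtain ⟨M1, hM1⟩ := hpos d lam κ A hC
  obtain ⟨M2, hM2⟩ := hgrow d lam κ A hC
  set m0 := max 1 (max M1 M2) with hm0
  have hm01 : 1 ≤ m0 := le_max_left _ _
  obtain ⟨p₀, hp₀, hpg⟩ := hM1 m0 ((le_max_left _ _).trans (le_max_right _ _))
  obtain ⟨C, hC0, hg⟩ := hM2 m0 ((le_max_right _ _).trans (le_max_right _ _))
  set th := thr κ m0 with hthdef
  have hth : ∀ j, th j ≤ 2 := thr_le_two hm01
  set k := 13 * κ ^ 2 with hk
  have hkd : 2 * k + 2 ≤ d := by omega
  set C1 : ℝ := 10 ^ d * 3 ^ k * C with hC1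
  have hCC1 : C ≤ C1 := by
    have h1 : (1 : ℝ) ≤ 10 ^ d * 3 ^ k :=
      one_le_mul_of_one_le_of_one_le (one_le_pow₀ (by norm_num)) (one_le_pow₀ (by norm_num))
    calc C = 1 * C := (one_mul C).symm
      _ ≤ 10 ^ d * 3 ^ k * C := mul_le_mul_of_nonneg_right h1 hC0.le
  have hC10 : 0 < C1 := hC0.trans_le hCC1
  obtain ⟨C', hC'0, hC'⟩ := hpair d k C1 hkd hC10
  refine ⟨th, p₀, C', hth, hp₀, hC'0, ?_, ?_⟩
  · intro o n L hL
    rw [(hmunv d lam th n (2 * (n : ℝ) + 2) L o (fun _ => 0) hd1 hth measurable_const le_rfl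
      hL).2]
    exact hpg n _ le_rfl
  intro x y n L hxy hLx hLy'
  set ρ := leb lam (bal (0 : Eu d) L) with hρ
  have hfin : IsFiniteMeasure ρ := finite_leb lam Metric.isBounded_closedBall
  have hnull : NullSingletonClass ρ := noAtoms_leb hd1 lam _
  have hpr : IsProbabilityMeasure (PL ρ) := (hprob (Eu d) ρ).1
  have hstop : Stop (fun P : Set (Eu d) => wet P x n) := (hm d n).2.2.2.2.2 x
  have hLn : 2 * ((n + 1 : ℕ) : ℝ) + 2 + ‖x‖ ≤ L := by
    push_cast
    linarith
  have hLy : 2 * ((n + 1 : ℕ) : ℝ) + 2 + ‖y‖ ≤ L := by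
    push_cast
    linarith
  have r2 := hres (Eu d) ρ (fun P => wet P x n) (fun A B => NN th x y n A B) hstop
    (measurable_NN hm th x y n)
  beta_reduce at r2
  have s2 : ∀ (ω : Cfg (Eu d)) (B : Set (Eu d)), NN th x y n (pt ω ∩ wet (pt ω) x n) B
      = NN th x y n (pt ω) B := fun ω B => NN_restr hd th (pt_finite ω) x y n B
  simp_rw [s2] at r2
  -- close pairs
  have v2 : ∫⁻ ω, ∫⁻ ω', NN th x y n (pt ω) (pt ω') ∂PL ρ ∂PL ρ
      ≤ ENNReal.ofReal (C' / ‖x - y‖) := by
    rw [lintegral_NN hprob hmunv hd hm hd1 lam hth x y n L hLn hLy]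
    have b1 : ∀ s : ℝ, 1 ≤ s → mun d lam th (2 * ((n + 1 : ℕ) : ℝ) + 2) (n + 1)
        (fun b => ind (b ∈ bal 0 s)) ≤ ENNReal.ofReal (C * s ^ k) := fun s hs => hg _ _ s hs
    refine hC' lam th _ (n + 1) (fun s hs => (b1 s hs).trans (ENNReal.ofReal_le_ofReal ?_)) ?_
      (x - y) hxy
    · exact mul_le_mul_of_nonneg_right hCC1 (by positivity)
    · exact (hrot d lam th _ (n + 1) k C hd1 hC0 (by omega) b1).2
  calc ∫⁻ ω, ind (BadPair th x y n (pt ω)) ∂PL ρ
      = ∫⁻ ω, ∫⁻ _ω', ind (BadPair th x y n (pt ω)) ∂PL ρ ∂PL ρ := by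
        refine lintegral_congr fun ω => ?_
        rw [lintegral_const, measure_univ, mul_one]
    _ ≤ ∫⁻ ω, ∫⁻ ω', NN th x y n (pt ω)
          (pt ω \ wet (pt ω) x n ∪ pt ω' ∩ wet (pt ω) x n) ∂PL ρ ∂PL ρ := by
        refine lintegral_mono fun ω => lintegral_mono fun ω' => ?_
        by_cases hb : BadPair th x y n (pt ω)
        · rw [ind_of hb]
          exact one_le_of_badPair hd hth (pt_finite ω) (pt_finite ω') hb
        · rw [ind_not hb]
          exact zero_le
    _ ≤ _ := r2.trans_le v2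

end Main

end Pool.Agent.Lib.MP_5349a4_pr.Hedge2
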