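import Pool.Agent.Lib.MP_5349a4_pr.M.H72.Meet
import Pool.Agent.Lib.MP_5349a4_pr.M.H47.Proc
import Pool.Agent.Lib.MP_5349a4_pr.M.Hedge2.Pair

/-!
# Cells: good starting points near a given site, independence of distant cells
-/

set_option autoImplicit false
open MeasureTheory Set
open scoped ENNReal NNReal Pointwise

namespace Pool.Agent.Lib.MP_5349a4_pr.Hedge2

open H72

/-- a Poisson process with intensity `lam`, on balls -/
structure LawP (d : ℕ) (lam : ℝ≥0) {Ω : Type} [MeasurableSpace Ω] (Pr : Measure Ω)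
    (T : Ω → Set (Eu d)) : Prop where
  prob : IsProbabilityMeasure Pr
  lf : ∀ ω, LF (T ω)
  law : ∀ V : Set (Eu d), Dom V → ∀ f : Set (Eu d) → ℝ≥0∞, CM f →
    Measurable (fun ω => f (T ω ∩ V)) ∧
    ∫⁻ ω, f (T ω ∩ V) ∂Pr = ∫⁻ ω', f (pt ω') ∂PL (leb lam V)

variable {d : ℕ}

section Basic
variable {lam : ℝ≥0} {Ω : Type} [MeasurableSpace Ω] {Pr : Measure Ω} {T : Ω → Set (Eu d)}

theorem LawP.of_proc {S : Ω → Set (Eu d)} (hI : ImgStatement) (hO : MOpsStatement)
    (hP : IsProc d Pr S) {a : ℝ} (ha : 0 < a) (had : a ^ d = lam) :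
    LawP d lam Pr (fun ω => (fun z => a⁻¹ • z) '' S ω) := by
  refine ⟨hP.prob, fun ω B hB => ?_, fun V hV f hf => scaled hI hO hP ha had hV hf⟩
  rw [← image_inter_preimage]
  refine (hP.lf ω _ ?_).image _
  have e : (fun z : Eu d => a⁻¹ • z) ⁻¹' B = a • B := by
    rw [Set.preimage_smul_inv₀ ha.ne']
  rw [e]
  exact hB.smul₀ a

theorem LawP.meas (h : LawP d lam Pr T) {V : Set (Eu d)} (hV : Dom V) {E : Set (Eu d) → Prop}
    (hE : ME E) : MeasurableSet {ω | E (T ω ∩ V)} := by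
  have h1 := (h.law V hV (fun Q => ind (E Q)) (measurable_ind hE)).1
  have e : {ω | E (T ω ∩ V)} = (fun ω => ind (E (T ω ∩ V))) ⁻¹' {1} := by
    ext ω
    simp only [mem_ofPred_eq, mem_preimage, mem_singleton_iff]
    by_cases hc : E (T ω ∩ V)
    · simp [ind_of hc, hc]
    · simp [ind_not hc, hc]
  rw [e]
  exact h1 (measurableSet_singleton 1)

theorem LawP.prob_eq (h : LawP d lam Pr T) {V : Set (Eu d)} (hV : Dom V) {E : Set (Eu d) → Prop}
    (hE : ME E) : Pr {ω | E (T ω ∩ V)} = PL (leb lam V) {ω | E (pt ω)} := by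
  have h1 := (h.law V hV (fun Q => ind (E Q)) (measurable_ind hE)).2
  rwa [lintegral_ind (h.meas hV hE), lintegral_ind hE] at h1

theorem me_inter (hMR : MRestrStatement) {E : Set (Eu d) → Prop} (hE : ME E) {A : Set (Eu d)}
    (hA : MeasurableSet A) : ME (fun Q => E (Q ∩ A)) := by
  obtain ⟨r, hr1, hr2⟩ := H47.Proc.exists_restr hMR A hA
  have e : {ω : Cfg (Eu d) | E (pt ω ∩ A)} = r ⁻¹' {η | E (pt η)} := by
    ext ω
    simp only [mem_ofPred_eq, mem_preimage]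
    rw [hr2]
  show MeasurableSet {ω : Cfg (Eu d) | E (pt ω ∩ A)}
  rw [e]
  exact hr1 hE

/-- events in disjoint sets are independent under `PL` -/
theorem prod_event (hR : ResStatement) (hPr : ProbStatement) (hMR : MRestrStatement)
    (ρ : Measure (Eu d)) [IsFiniteMeasure ρ] {ι : Type} [DecidableEq ι] (A : ι → Set (Eu d))
    (hA : ∀ i, MeasurableSet (A i)) (hd : Pairwise (fun i j => Disjoint (A i) (A j)))
    (E : ι → Set (Eu d) → Prop) (hE : ∀ i, ME (E i)) (s : Finset ι) :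
    PL ρ {ω | ∀ i ∈ s, E i (pt ω ∩ A i)} = ∏ i ∈ s, PL ρ {ω | E i (pt ω ∩ A i)} := by
  have hm1 : ∀ i, MeasurableSet {ω : Cfg (Eu d) | E i (pt ω ∩ A i)} := fun i =>
    me_inter hMR (hE i) (hA i)
  have hm : ∀ t : Finset ι, MeasurableSet {ω : Cfg (Eu d) | ∀ i ∈ t, E i (pt ω ∩ A i)} := by
    intro t
    have e : {ω : Cfg (Eu d) | ∀ i ∈ t, E i (pt ω ∩ A i)} =
        ⋂ i ∈ t, {ω : Cfg (Eu d) | E i (pt ω ∩ A i)} := by
      ext ω; simp
    rw [e]
    exact Finset.measurableSet_biInter _ fun i _ => hm1 i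
  induction s using Finset.induction_on with
  | empty =>
    haveI := (hPr (Eu d) ρ).1
    simp
  | insert i₀ s hi ih =>
    rw [Finset.prod_insert hi, ← ih]
    set f : Set (Eu d) → Set (Eu d) → ℝ≥0∞ := fun P Q =>
      ind (E i₀ (P ∩ A i₀)) * ind (∀ i ∈ s, E i (Q ∩ A i)) with hf
    have hfm : Measurable (fun q : Cfg (Eu d) × Cfg (Eu d) => f (pt q.1) (pt q.2)) := by
      refine Measurable.mul ?_ ?_
      · exact (measurable_ind (hm1 i₀)).comp measurable_fst
      · exact (measurable_ind (hm s)).comp measurable_snd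
    have h1 := (hR (Eu d) ρ (A i₀) (hA i₀)).2 f hfm
    have e2 : ∀ (Q : Set (Eu d)), ∀ i ∈ s, (Q \ A i₀) ∩ A i = Q ∩ A i := by
      intro Q i his
      have hne : i ≠ i₀ := fun h => hi (h ▸ his)
      ext e
      simp only [mem_inter_iff, mem_sdiff]
      exact ⟨fun h => ⟨h.1.1, h.2⟩, fun h => ⟨⟨h.1, fun h0 =>
        disjoint_left.1 (hd hne) h.2 h0⟩, h.2⟩⟩
    have e1 : ∀ ω : Cfg (Eu d), f (pt ω ∩ A i₀) (pt ω \ A i₀) =
        ind (∀ i ∈ insert i₀ s, E i (pt ω ∩ A i)) := by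
      intro ω
      simp only [hf]
      rw [← ind_and]
      refine ind_congr ?_
      rw [inter_assoc, inter_self, Finset.forall_mem_insert]
      refine and_congr Iff.rfl ?_
      exact forall₂_congr fun i his => by rw [e2 _ i his]
    have e3 : ∀ ω ω' : Cfg (Eu d), f (pt ω ∩ A i₀) (pt ω' \ A i₀) =
        ind (E i₀ (pt ω ∩ A i₀)) * ind (∀ i ∈ s, E i (pt ω' ∩ A i)) := by
      intro ω ω'
      simp only [hf]
      rw [inter_assoc, inter_self]
      congr 1
      refine ind_congr ?_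
      exact forall₂_congr fun i his => by rw [e2 _ i his]
    simp only [e1, e3] at h1
    rw [lintegral_ind (hm _)] at h1
    rw [h1]
    have e4 : ∀ ω : Cfg (Eu d), ∫⁻ ω' : Cfg (Eu d), ind (E i₀ (pt ω ∩ A i₀)) *
        ind (∀ i ∈ s, E i (pt ω' ∩ A i)) ∂PL ρ =
        ind (E i₀ (pt ω ∩ A i₀)) * PL ρ {ω | ∀ i ∈ s, E i (pt ω ∩ A i)} := by
      intro ω
      rw [lintegral_const_mul _ (measurable_ind (hm s)), lintegral_ind (hm s)]
    simp only [e4]
    rw [lintegral_mul_const _ (measurable_ind (hm1 i₀)), lintegral_ind (hm1 i₀)]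

theorem LawP.indep (hR : ResStatement) (hPr : ProbStatement) (hMR : MRestrStatement)
    (h : LawP d lam Pr T) {ι : Type} [DecidableEq ι] (s : Finset ι) (A : ι → Set (Eu d))
    (hA : ∀ i, Dom (A i)) (hd : Pairwise (fun i j => Disjoint (A i) (A j)))
    (E : ι → Set (Eu d) → Prop) (hE : ∀ i, ME (E i)) :
    Pr {ω | ∀ i ∈ s, E i (T ω ∩ A i)} = ∏ i ∈ s, Pr {ω | E i (T ω ∩ A i)} := by
  set V : Set (Eu d) := ⋃ i ∈ s, A i with hVdef
  have hV : Dom V := by
    refine ⟨Finset.measurableSet_biUnion s fun i _ => (hA i).1, ?_⟩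
    exact (Bornology.isBounded_biUnion_finset s).2 fun i _ => (hA i).2
  have hsub : ∀ i ∈ s, A i ⊆ V := fun i hi => subset_biUnion_of_mem (u := A) hi
  have hfin : IsFiniteMeasure (leb lam V) := finite_leb lam hV.2
  have e : ∀ (Q : Set (Eu d)), ∀ i ∈ s, Q ∩ V ∩ A i = Q ∩ A i := fun Q i hi => by
    rw [inter_assoc, inter_eq_right.2 (hsub i hi)]
  have hme : ME (fun Q => ∀ i ∈ s, E i (Q ∩ A i)) := by
    have e' : {ω : Cfg (Eu d) | ∀ i ∈ s, E i (pt ω ∩ A i)} =
        ⋂ i ∈ s, {ω : Cfg (Eu d) | E i (pt ω ∩ A i)} := by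
      ext ω; simp
    show MeasurableSet {ω : Cfg (Eu d) | ∀ i ∈ s, E i (pt ω ∩ A i)}
    rw [e']
    exact Finset.measurableSet_biInter _ fun i _ => me_inter hMR (hE i) (hA i).1
  have h1 := h.prob_eq hV hme
  rw [prod_event hR hPr hMR (leb lam V) A (fun i => (hA i).1) hd E hE s] at h1
  have h2 : {ω | ∀ i ∈ s, E i (T ω ∩ V ∩ A i)} = {ω | ∀ i ∈ s, E i (T ω ∩ A i)} := by
    ext ω
    exact forall₂_congr fun i hi => by rw [e _ i hi]
  rw [h2] at h1
  rw [h1]
  refine Finset.prod_congr rfl fun i hi => ?_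
  have h3 := h.prob_eq hV (me_inter hMR (hE i) (hA i).1)
  rw [← h3]
  congr 1
  ext ω
  simp only [mem_ofPred_eq]
  rw [e _ i hi]

end Basic

section Gam

/-- a point near `v` with a good invasion -/
def gam (th : ℕ → ℝ) (n : ℕ) (v : Eu d) (Q : Set (Eu d)) : Prop :=
  ∃ x ∈ Q, x ∈ bal v 1 ∧ good th Q x n

/-- both invasions are good and they meet -/
def GB (th : ℕ → ℝ) (n : ℕ) (x y : Eu d) (Q : Set (Eu d)) : Prop :=
  good th Q x n ∧ good th Q y n ∧ ¬ Disjoint (inv Q x n) (inv Q y n)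

theorem good_mono' {th : ℕ → ℝ} {P : Set (Eu d)} {o : Eu d} {i n : ℕ} (h : i ≤ n)
    (hg : good th P o n) : good th P o i := fun j hj => hg j (by omega)

theorem good_loc (hD : InvDStatement) {th : ℕ → ℝ} (hth : ∀ j, th j ≤ 2) {P Q : Set (Eu d)}
    (hP : LF P) (hQ : LF Q) {o : Eu d} {n : ℕ}
    (he : P ∩ bal o (2 * n + 2) = Q ∩ bal o (2 * n + 2)) (h : good th P o n) :
    good th Q o n ∧ ∀ j ≤ n, inv Q o j = inv P o j :=
  (hD d P Q o hP hQ).2.2.2.2.1 th n hth h he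

theorem cap (Q : Set (Eu d)) {B W : Set (Eu d)} (h : B ⊆ W) : (Q ∩ W) ∩ B = Q ∩ B := by
  rw [inter_assoc, inter_eq_right.mpr h]

theorem ball_sub {x v : Eu d} (hx : x ∈ bal v 1) (n : ℕ) :
    bal x (2 * n + 2) ⊆ bal v (2 * n + 3) := by
  intro z hz
  unfold bal at *
  rw [Metric.mem_closedBall] at *
  have h1 := dist_triangle z x v
  linarith

theorem self_mem (n : ℕ) {x v : Eu d} (hx : x ∈ bal v 1) : x ∈ bal v (2 * n + 3) := by
  unfold bal at *
  rw [Metric.mem_closedBall] at *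
  have : (0 : ℝ) ≤ n := Nat.cast_nonneg n
  linarith

theorem gam_loc (hD : InvDStatement) {th : ℕ → ℝ} (hth : ∀ j, th j ≤ 2) {Q : Set (Eu d)}
    (hQ : LF Q) {n : ℕ} {v : Eu d} {V : Set (Eu d)} (hV : bal v (2 * n + 3) ⊆ V) :
    gam th n v (Q ∩ V) ↔ gam th n v Q := by
  constructor
  · rintro ⟨x, hx, hxv, hg⟩
    exact ⟨x, hx.1, hxv, (good_loc hD hth (lf_inter hQ V) hQ
      (cap Q ((ball_sub hxv n).trans hV)) hg).1⟩
  · rintro ⟨x, hx, hxv, hg⟩
    exact ⟨x, ⟨hx, hV (self_mem n hxv)⟩, hxv, (good_loc hD hth hQ (lf_inter hQ V)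
      (cap Q ((ball_sub hxv n).trans hV)).symm hg).1⟩

theorem gam_mono {th : ℕ → ℝ} {n m : ℕ} (h : n ≤ m) {v : Eu d} {Q : Set (Eu d)}
    (hg : gam th m v Q) : gam th n v Q := by
  obtain ⟨x, h1, h2, h3⟩ := hg
  exact ⟨x, h1, h2, good_mono' h h3⟩

/-- good at all levels -/
theorem gam_all {th : ℕ → ℝ} {v : Eu d} {Q : Set (Eu d)} (hQ : LF Q)
    (h : ∀ n, gam th n v Q) : ∃ x ∈ Q, x ∈ bal v 1 ∧ ∀ n, good th Q x n := by
  have hfin : (Q ∩ bal v 1).Finite := hQ _ (dom_bal v 1).2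
  by_contra hcon
  push Not at hcon
  choose! nz hnz using hcon
  obtain ⟨x, hx, hxv, hg⟩ := h (hfin.toFinset.sup nz)
  apply hnz x hx hxv
  refine good_mono' ?_ hg
  exact Finset.le_sup (f := nz) (hfin.mem_toFinset.mpr ⟨hx, hxv⟩)

theorem me_gam (hM : InvMStatement) (hS : MSumStatement) (th : ℕ → ℝ) (n : ℕ) (v : Eu d) :
    ME (gam th n v) := by
  have h1 : MeasurableSet {q : Unit × Cfg (Eu d) | ∃ p ∈ pt q.2,
      p ∈ bal v 1 ∧ good th (pt q.2) p n} := by
    refine hS.2.1 Unit (Eu d) (fun _ p Q => p ∈ bal v 1 ∧ good th Q p n) ?_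
    refine MeasurableSet.inter ?_ ?_
    · exact (show Measurable fun q : Unit × Eu d × Cfg (Eu d) => q.2.1 by fun_prop)
        (Metric.isClosed_closedBall.measurableSet)
    · exact (show Measurable fun q : Unit × Eu d × Cfg (Eu d) => (q.2.1, q.2.2) by fun_prop)
        ((hM d n).2.2.2.1 th)
  exact (show Measurable fun ω : Cfg (Eu d) => ((), ω) by fun_prop) h1

theorem good_shift (hSc : InvScStatement) (th : ℕ → ℝ) (P : Set (Eu d)) (o v : Eu d) (n : ℕ) :
    good th ((fun z => z + v) '' P) (o + v) n ↔ good th P o n := by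
  unfold good
  refine forall₂_congr fun j _ => ?_
  rw [((hSc d P o j).2.2.2.1 v).2]

theorem gam_shift (hSc : InvScStatement) (th : ℕ → ℝ) (P : Set (Eu d)) (v : Eu d) (n : ℕ) :
    gam th n v ((fun z => z + v) '' P) ↔ gam th n 0 P := by
  have hb : ∀ x : Eu d, x + v ∈ bal v 1 ↔ x ∈ bal 0 1 := by
    intro x
    unfold bal
    rw [Metric.mem_closedBall, Metric.mem_closedBall, dist_eq_norm, dist_eq_norm, sub_zero,
      add_sub_cancel_right]
  constructor
  · rintro ⟨_, ⟨x, hx, rfl⟩, h1, h2⟩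
    exact ⟨x, hx, (hb x).1 h1, (good_shift hSc th P x v n).1 h2⟩
  · rintro ⟨x, hx, h1, h2⟩
    exact ⟨x + v, ⟨x, hx, rfl⟩, (hb x).2 h1, (good_shift hSc th P x v n).2 h2⟩

theorem leb_shift (lam : ℝ≥0) (v : Eu d) (L : ℝ) :
    (leb lam (bal (0 : Eu d) L)).map (fun z => z + v) = leb lam (bal v L) := by
  have h1 : MeasurePreserving (fun y : Eu d => y + v) volume volume :=
    measurePreserving_add_right volume v
  have he : MeasurableEmbedding (fun y : Eu d => y + v) :=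
    (Homeomorph.addRight v).measurableEmbedding
  have h2 := h1.restrict_preimage_emb he (bal v L)
  have h3 : (fun y : Eu d => y + v) ⁻¹' bal v L = bal 0 L := by
    ext x
    unfold bal
    rw [mem_preimage, Metric.mem_closedBall, Metric.mem_closedBall, dist_eq_norm, dist_eq_norm,
      sub_zero, add_sub_cancel_right]
  rw [h3] at h2
  unfold leb
  rw [Measure.map_smul, h2.map_eq]

/-- the probability of a good point near the origin -/
noncomputable def qq (d : ℕ) (lam : ℝ≥0) (th : ℕ → ℝ) (n : ℕ) : ℝ≥0∞ :=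
  PL (leb lam (bal (0 : Eu d) (2 * n + 3))) {ω | gam th n 0 (pt ω)}

theorem qq_eq (hI : ImgStatement) (hSc : InvScStatement) (hM : InvMStatement)
    (hS : MSumStatement) (lam : ℝ≥0) (th : ℕ → ℝ) (n : ℕ) (v : Eu d) :
    PL (leb lam (bal v (2 * n + 3))) {ω | gam th n v (pt ω)} = qq d lam th n := by
  have hfin : IsFiniteMeasure (leb lam (bal (0 : Eu d) (2 * n + 3))) :=
    finite_leb lam (dom_bal _ _).2
  have h1 := hI (Eu d) (Eu d) (leb lam (bal (0 : Eu d) (2 * n + 3))) (fun z => z + v)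
    (fun Q => ind (gam th n v Q)) (measurable_id.add_const _) (measurable_ind (me_gam hM hS th n v))
  rw [leb_shift, lintegral_ind (me_gam hM hS th n v)] at h1
  rw [h1]
  unfold qq
  rw [← lintegral_ind (me_gam hM hS th n 0)]
  exact lintegral_congr fun ω => ind_congr (gam_shift hSc th (pt ω) v n)

variable {lam : ℝ≥0} {Ω : Type} [MeasurableSpace Ω] {Pr : Measure Ω} {T : Ω → Set (Eu d)}

theorem LawP.gam_eq (h : LawP d lam Pr T) (hD : InvDStatement) {th : ℕ → ℝ}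
    (hth : ∀ j, th j ≤ 2) (n : ℕ) (v : Eu d) :
    {ω | gam th n v (T ω)} = {ω | gam th n v (T ω ∩ bal v (2 * n + 3))} := by
  ext ω
  exact (gam_loc hD hth (h.lf ω) subset_rfl).symm

theorem LawP.meas_gam (h : LawP d lam Pr T) (hD : InvDStatement) (hM : InvMStatement)
    (hS : MSumStatement) {th : ℕ → ℝ} (hth : ∀ j, th j ≤ 2) (n : ℕ) (v : Eu d) :
    MeasurableSet {ω | gam th n v (T ω)} := by
  rw [h.gam_eq hD hth n v]
  exact h.meas (dom_bal _ _) (me_gam hM hS th n v)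

theorem LawP.prob_gam (h : LawP d lam Pr T) (hI : ImgStatement) (hSc : InvScStatement)
    (hD : InvDStatement) (hM : InvMStatement) (hS : MSumStatement) {th : ℕ → ℝ}
    (hth : ∀ j, th j ≤ 2) (n : ℕ) (v : Eu d) : Pr {ω | gam th n v (T ω)} = qq d lam th n := by
  rw [h.gam_eq hD hth n v, h.prob_eq (dom_bal _ _) (me_gam hM hS th n v), qq_eq hI hSc hM hS]

end Gam

end Pool.Agent.Lib.MP_5349a4_pr.Hedge2
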