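import Pool.Agent.Lib.MP_5349a4_pr.M.Iface4
import Pool.Agent.Lib.MP_5349a4_pr.M.Base

/-!
# Dyadic cubes: a locally finite set is a measurable function of its counts in dyadic cubes
-/

set_option autoImplicit false
open MeasureTheory Set ProbabilityTheory
open scoped ENNReal NNReal

namespace Pool.Agent.Lib.MP_5349a4_pr.Hedge2

variable {d : ℕ}

/-- index of a dyadic cube -/
abbrev Ix (d : ℕ) : Type := ℕ × (Fin d → ℤ)

/-- level `n` cube of a point -/
noncomputable def fl (n : ℕ) (x : Eu d) : Fin d → ℤ := fun i => ⌊(2 : ℝ) ^ n * x i⌋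

/-- the dyadic cube -/
def cube (i : Ix d) : Set (Eu d) := {x | fl i.1 x = i.2}

/-- lower corner of a dyadic cube -/
noncomputable def corner (i : Ix d) (k : Fin d) : ℝ := (i.2 k : ℝ) / 2 ^ i.1

theorem fl_meas (n : ℕ) : Measurable (fl n : Eu d → Fin d → ℤ) := by
  refine measurable_pi_iff.2 fun i => ?_
  have h : Measurable fun x : Eu d => x i := (EuclideanSpace.proj i).continuous.measurable
  exact Int.measurable_floor.comp (h.const_mul _)

theorem meas_cube (i : Ix d) : MeasurableSet (cube i) :=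
  fl_meas i.1 (Set.to_countable {i.2}).measurableSet

theorem corner_le {i : Ix d} {x : Eu d} (h : x ∈ cube i) (k : Fin d) : corner i k ≤ x k := by
  have h1 : ⌊(2 : ℝ) ^ i.1 * x k⌋ = i.2 k := congrFun h k
  have h2 := Int.floor_le ((2 : ℝ) ^ i.1 * x k)
  rw [h1] at h2
  unfold corner
  rw [div_le_iff₀ (by positivity)]
  linarith

theorem lt_corner {i : Ix d} {x : Eu d} (h : x ∈ cube i) (k : Fin d) :
    x k < corner i k + 1 / 2 ^ i.1 := by
  have h1 : ⌊(2 : ℝ) ^ i.1 * x k⌋ = i.2 k := congrFun h k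
  have h2 := Int.lt_floor_add_one ((2 : ℝ) ^ i.1 * x k)
  rw [h1] at h2
  unfold corner
  rw [← add_div, lt_div_iff₀ (by positivity)]
  linarith

theorem mem_cube_self (n : ℕ) (x : Eu d) : x ∈ cube (n, fl n x) := rfl

/-- a finer cube of a point of a cube is contained in it -/
theorem cube_sub {i : Ix d} {x : Eu d} (h : x ∈ cube i) {m : ℕ} (hm : i.1 ≤ m) :
    cube (m, fl m x) ⊆ cube i := by
  intro y hy
  show fl i.1 y = i.2
  rw [← (show fl i.1 x = i.2 from h)]
  funext k
  have h1 : ⌊(2 : ℝ) ^ m * y k⌋ = ⌊(2 : ℝ) ^ m * x k⌋ := congrFun hy k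
  have key : ∀ t : ℝ, ⌊(2 : ℝ) ^ i.1 * t⌋ = ⌊(2 : ℝ) ^ m * t⌋ / (2 ^ (m - i.1) : ℕ) := by
    intro t
    have e : (2 : ℝ) ^ i.1 * t = ((2 : ℝ) ^ m * t) / ((2 ^ (m - i.1) : ℕ) : ℝ) := by
      rw [eq_div_iff (by positivity)]
      push_cast
      have : (2 : ℝ) ^ m = 2 ^ i.1 * 2 ^ (m - i.1) := by
        rw [← pow_add]
        congr 1
        omega
      rw [this]
      ring
    rw [e]
    exact Int.floor_div_natCast _ _
  show ⌊(2 : ℝ) ^ i.1 * y k⌋ = ⌊(2 : ℝ) ^ i.1 * x k⌋
  rw [key, key, h1]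

theorem dist_cube {i : Ix d} {x y : Eu d} (hx : x ∈ cube i) (hy : y ∈ cube i) :
    dist x y ≤ Real.sqrt d / 2 ^ i.1 := by
  rw [EuclideanSpace.dist_eq]
  have h1 : ∀ k : Fin d, dist (x k) (y k) ^ 2 ≤ (1 / 2 ^ i.1) ^ 2 := by
    intro k
    refine pow_le_pow_left₀ dist_nonneg ?_ 2
    rw [Real.dist_eq, abs_le]
    have a1 := corner_le hx k
    have a2 := lt_corner hx k
    have a3 := corner_le hy k
    have a4 := lt_corner hy k
    constructor <;> linarith
  calc Real.sqrt (∑ k, dist (x k) (y k) ^ 2) ≤ Real.sqrt (∑ _k : Fin d, (1 / 2 ^ i.1) ^ 2) :=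
        Real.sqrt_le_sqrt (Finset.sum_le_sum fun k _ => h1 k)
    _ = Real.sqrt d / 2 ^ i.1 := by
        rw [Finset.sum_const, Finset.card_univ, Fintype.card_fin, nsmul_eq_mul,
          Real.sqrt_mul (Nat.cast_nonneg d), Real.sqrt_sq (by positivity)]
        ring

theorem bdd_cube (i : Ix d) : Bornology.IsBounded (cube i) := by
  rcases (cube i).eq_empty_or_nonempty with h | ⟨x, hx⟩
  · rw [h]
    exact Bornology.isBounded_empty
  · refine (Metric.isBounded_closedBall (x := x) (r := Real.sqrt d / 2 ^ i.1)).subset ?_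
    intro y hy
    exact dist_cube hy hx

/-- counts -/
noncomputable def cnts (S : Set (Eu d)) : Ix d → ℕ := fun i => (S ∩ cube i).ncard

/-- candidate for the only point in the cube `i` -/
noncomputable def XX (i : Ix d) (c : Ix d → ℕ) : Eu d := by
  classical
  exact WithLp.toLp 2 fun k => ⨆ j : Ix d, if cube j ⊆ cube i ∧ 1 ≤ c j then corner j k
    else corner i k

/-- the cube has one point -/
def BB (i : Ix d) : Set (Ix d → ℕ) := {c | c i = 1}

theorem meas_BB (i : Ix d) : MeasurableSet (BB i) :=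
  (measurable_pi_apply i : Measurable fun c : Ix d → ℕ => c i) (measurableSet_singleton 1)

theorem meas_XX (i : Ix d) : Measurable (XX i) := by
  classical
  have h1 : Measurable fun c : Ix d → ℕ => (fun k : Fin d => ⨆ j : Ix d,
      if cube j ⊆ cube i ∧ 1 ≤ c j then corner j k else corner i k) := by
    refine measurable_pi_iff.2 fun k => ?_
    refine Measurable.iSup fun j => ?_
    refine Measurable.ite ?_ measurable_const measurable_const
    by_cases h : cube j ⊆ cube i
    · have e : {c : Ix d → ℕ | cube j ⊆ cube i ∧ 1 ≤ c j} = (fun c => c j) ⁻¹' {n | 1 ≤ n} := by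
        ext c
        simp [h]
      rw [e]
      exact (measurable_pi_apply j : Measurable fun c : Ix d → ℕ => c j) (Set.to_countable _).measurableSet
    · have e : {c : Ix d → ℕ | cube j ⊆ cube i ∧ 1 ≤ c j} = ∅ := by
        ext c
        simp [h]
      rw [e]
      exact MeasurableSet.empty
  have h2 : Measurable (WithLp.toLp 2 : (Fin d → ℝ) → Eu d) := by
    exact (MeasurableEquiv.toLp 2 (Fin d → ℝ)).measurable
  exact h2.comp h1

/-- the configuration of an array of counts -/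
def SC (c : Ix d → ℕ) : Set (Eu d) := {x | ∃ i, c ∈ BB i ∧ XX i c = x}

theorem XX_eq {S : Set (Eu d)} (hS : LF S) {i : Ix d} {p : Eu d} (h : S ∩ cube i = {p}) :
    XX i (cnts S) = p := by
  classical
  have hp : p ∈ S ∩ cube i := by rw [h]; exact mem_singleton p
  have hfin : ∀ j : Ix d, (S ∩ cube j).Finite := fun j => hS _ (bdd_cube j)
  ext k
  have e0 : (XX i (cnts S)) k = ⨆ j : Ix d, if cube j ⊆ cube i ∧ 1 ≤ cnts S j then corner j k
      else corner i k := rfl
  rw [e0]
  have hle : ∀ j : Ix d, (if cube j ⊆ cube i ∧ 1 ≤ cnts S j then corner j k else corner i k)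
      ≤ p k := by
    intro j
    split_ifs with hj
    · obtain ⟨q, hq⟩ : (S ∩ cube j).Nonempty := by
        rw [← Set.ncard_pos (hfin j)]
        exact hj.2
      have h1 : q ∈ S ∩ cube i := ⟨hq.1, hj.1 hq.2⟩
      rw [h] at h1
      have h2 : q = p := h1
      rw [← h2]
      exact corner_le hq.2 k
    · exact corner_le hp.2 k
  have hbdd : BddAbove (Set.range fun j : Ix d =>
      if cube j ⊆ cube i ∧ 1 ≤ cnts S j then corner j k else corner i k) := by
    refine ⟨p k, ?_⟩
    rintro _ ⟨j, rfl⟩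
    exact hle j
  refine le_antisymm (ciSup_le hle) ?_
  refine le_of_forall_pos_le_add fun ε hε => ?_
  obtain ⟨m0, hm0⟩ := exists_pow_lt_of_lt_one hε (show (1 / 2 : ℝ) < 1 by norm_num)
  set m := max m0 i.1 with hm
  have h1 : (1 : ℝ) / 2 ^ m ≤ ε := by
    rw [← one_div_pow]
    refine le_trans (pow_le_pow_of_le_one (by norm_num) (by norm_num) (le_max_left m0 i.1)) hm0.le
  have h2 := le_ciSup hbdd (m, fl m p)
  have h3 : cube (m, fl m p) ⊆ cube i ∧ 1 ≤ cnts S (m, fl m p) := by
    refine ⟨cube_sub hp.2 (le_max_right _ _), ?_⟩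
    show 1 ≤ (S ∩ cube (m, fl m p)).ncard
    rw [Nat.succ_le_iff, Set.ncard_pos (hfin _)]
    exact ⟨p, hp.1, mem_cube_self m p⟩
  simp only [if_pos h3] at h2
  have h4 := lt_corner (mem_cube_self m p) k
  simp only at h4
  linarith

theorem exists_single {S : Set (Eu d)} (hS : LF S) {x : Eu d} (hx : x ∈ S) :
    ∃ n, S ∩ cube (n, fl n x) = {x} := by
  have hfin : (S ∩ cube (0, fl 0 x)).Finite := hS _ (bdd_cube _)
  obtain ⟨δ, hδ, hδ'⟩ : ∃ δ : ℝ, 0 < δ ∧ ∀ y ∈ S ∩ cube (0, fl 0 x), y ≠ x → δ ≤ dist x y := by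
    have h1 : ((S ∩ cube (0, fl 0 x)) \ {x}).Finite := hfin.subset Set.sdiff_subset
    rcases ((S ∩ cube (0, fl 0 x)) \ {x}).eq_empty_or_nonempty with h0 | h0
    · refine ⟨1, one_pos, fun y hy hne => ?_⟩
      have : y ∈ (S ∩ cube (0, fl 0 x)) \ {x} := ⟨hy, hne⟩
      rw [h0] at this
      exact absurd this (notMem_empty y)
    · obtain ⟨y, hy, hmin⟩ := Set.exists_min_image _ (fun y => dist x y) h1 h0
      refine ⟨dist x y, dist_pos.2 fun e => hy.2 e.symm, fun z hz hne => hmin z ⟨hz, hne⟩⟩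
  obtain ⟨m, hm⟩ := exists_pow_lt_of_lt_one (show 0 < δ / (Real.sqrt d + 1) by positivity)
    (show (1 / 2 : ℝ) < 1 by norm_num)
  refine ⟨m, ?_⟩
  ext y
  constructor
  · rintro ⟨hy, hyc⟩
    by_contra hne
    have h1 := dist_cube (mem_cube_self m x) hyc
    have h2 : y ∈ S ∩ cube (0, fl 0 x) := ⟨hy, cube_sub (mem_cube_self 0 x) (Nat.zero_le m) hyc⟩
    have h3 := hδ' y h2 hne
    have h4 : Real.sqrt d / 2 ^ m < δ := by
      rw [lt_div_iff₀ (by positivity), one_div_pow] at hm
      have h5 : Real.sqrt d / 2 ^ m ≤ 1 / 2 ^ m * (Real.sqrt d + 1) := by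
        rw [div_mul_eq_mul_div, one_mul]
        exact div_le_div_of_nonneg_right (by linarith) (by positivity)
      linarith
    simp only at h1
    linarith
  · rintro rfl
    exact ⟨hx, mem_cube_self m _⟩

/-- a locally finite set is recovered from its counts -/
theorem SC_cnts {S : Set (Eu d)} (hS : LF S) : SC (cnts S) = S := by
  ext x
  constructor
  · rintro ⟨i, hi, rfl⟩
    obtain ⟨p, hp⟩ := Set.ncard_eq_one.1 (show (S ∩ cube i).ncard = 1 from hi)
    rw [XX_eq hS hp]
    have : p ∈ S ∩ cube i := by rw [hp]; exact mem_singleton p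
    exact this.1
  · intro hx
    obtain ⟨n, hn⟩ := exists_single hS hx
    refine ⟨(n, fl n x), ?_, XX_eq hS hn⟩
    show (S ∩ cube (n, fl n x)).ncard = 1
    rw [hn, Set.ncard_singleton]

end Pool.Agent.Lib.MP_5349a4_pr.Hedge2
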