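import Pool.Agent.Lib.MP_5349a4_pr.M.Hedge2.Pos

/-!
# Almost surely there are arbitrarily many points with pairwise disjoint invasion trees
-/

set_option autoImplicit false
open MeasureTheory Set
open scoped ENNReal NNReal Pointwise

namespace Pool.Agent.Lib.MP_5349a4_pr.Hedge2

open H72

variable {d : ℕ}

/-- `m` points with pairwise disjoint invasion trees -/
def DJ (m : ℕ) (Q : Set (Eu d)) : Prop :=
  ∃ f : Fin m → Eu d, (∀ a, f a ∈ Q) ∧ ∀ a b, a ≠ b → Disjoint (tree Q (f a)) (tree Q (f b))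

theorem exists_pow_small {q δ : ℝ≥0∞} (hq : q < 1) (hδ : 0 < δ) (m : ℕ) :
    ∃ K : ℕ, m * q ^ K ≤ δ := by
  have h1 : Filter.Tendsto (fun K : ℕ => (m : ℝ≥0∞) * q ^ K) Filter.atTop (nhds (m * 0)) :=
    ENNReal.Tendsto.const_mul (ENNReal.tendsto_pow_atTop_nhds_zero_of_lt_one hq)
      (Or.inr (ENNReal.natCast_ne_top m))
  rw [mul_zero] at h1
  obtain ⟨K, hK⟩ := (h1.eventually (gt_mem_nhds hδ)).exists
  exact ⟨K, hK.le⟩

theorem exists_far {M : ℝ≥0∞} (hM : M ≠ ∞) {C' : ℝ} (hC' : 0 < C') {δ : ℝ≥0∞} (hδ : 0 < δ)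
    (hδ' : δ ≠ ∞) (R₀ : ℝ) : ∃ R : ℝ, R₀ ≤ R ∧ M * ENNReal.ofReal (C' / (R - 2)) ≤ δ := by
  have hδr : 0 < δ.toReal := ENNReal.toReal_pos hδ.ne' hδ'
  have hMr : 0 ≤ M.toReal := ENNReal.toReal_nonneg
  refine ⟨max R₀ (3 + M.toReal * C' / δ.toReal), le_max_left _ _, ?_⟩
  set R := max R₀ (3 + M.toReal * C' / δ.toReal) with hR
  have h1 : 3 + M.toReal * C' / δ.toReal ≤ R := le_max_right _ _
  have h0 : 0 ≤ M.toReal * C' / δ.toReal := by positivity
  have h2 : 0 < R - 2 := by linarith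
  have h3 : M.toReal * (C' / (R - 2)) ≤ δ.toReal := by
    rw [← mul_div_assoc, div_le_iff₀ h2]
    have h4 : M.toReal * C' / δ.toReal ≤ R - 2 := by linarith
    rw [div_le_iff₀ hδr] at h4
    linarith
  calc M * ENNReal.ofReal (C' / (R - 2))
      = ENNReal.ofReal (M.toReal) * ENNReal.ofReal (C' / (R - 2)) := by
        rw [ENNReal.ofReal_toReal hM]
    _ = ENNReal.ofReal (M.toReal * (C' / (R - 2))) := (ENNReal.ofReal_mul hMr).symm
    _ ≤ ENNReal.ofReal δ.toReal := ENNReal.ofReal_le_ofReal h3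
    _ = δ := ENNReal.ofReal_toReal hδ'

variable {lam : ℝ≥0} {Ω : Type} [MeasurableSpace Ω] {Pr : Measure Ω} {T : Ω → Set (Eu d)}

theorem me_not {E : Set (Eu d) → Prop} (hE : ME E) : ME (fun Q => ¬ E Q) := hE.compl

/-- the cells of one group all fail -/
theorem LawP.group (h : LawP d lam Pr T) (hR : ResStatement) (hPr : ProbStatement)
    (hMR : MRestrStatement) (hI : ImgStatement) (hSc : InvScStatement)
    (hD : InvDStatement) (hM : InvMStatement) (hS : MSumStatement) {th : ℕ → ℝ}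
    (hth : ∀ j, th j ≤ 2) (n : ℕ) {K : ℕ} (v : Fin K → Eu d)
    (hv : ∀ i j, i ≠ j → 4 * (n : ℝ) + 7 ≤ dist (v i) (v j)) :
    Pr {ω | ∀ i, ¬ gam th n (v i) (T ω)} = (1 - qq d lam th n) ^ K := by
  have hprob := h.prob
  have h1 := h.indep hR hPr hMR (Finset.univ : Finset (Fin K)) (fun i => bal (v i) (2 * n + 3))
    (fun i => dom_bal _ _) (by
      intro i j hij
      rw [Set.disjoint_left]
      intro z hz hz'
      unfold bal at hz hz'
      rw [Metric.mem_closedBall] at hz hz'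
      have a1 := hv i j hij
      have a2 := dist_triangle (v i) z (v j)
      rw [dist_comm (v i) z] at a2
      linarith) (fun i Q => ¬ gam th n (v i) Q) (fun i => me_not (me_gam hM hS th n (v i)))
  have e1 : {ω | ∀ i ∈ (Finset.univ : Finset (Fin K)),
      ¬ gam th n (v i) (T ω ∩ bal (v i) (2 * n + 3))} = {ω | ∀ i, ¬ gam th n (v i) (T ω)} := by
    ext ω
    simp only [mem_ofPred_eq, Finset.mem_univ, true_imp_iff]
    exact forall_congr' fun i => not_congr (gam_loc hD hth (h.lf ω) subset_rfl)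
  have e2 : ∀ i : Fin K, Pr {ω | ¬ gam th n (v i) (T ω ∩ bal (v i) (2 * n + 3))} =
      1 - qq d lam th n := by
    intro i
    have a1 : {ω | ¬ gam th n (v i) (T ω ∩ bal (v i) (2 * n + 3))} =
        {ω | gam th n (v i) (T ω)}ᶜ := by
      ext ω
      exact not_congr (gam_loc hD hth (h.lf ω) subset_rfl)
    rw [a1, prob_compl_eq_one_sub (h.meas_gam hD hM hS hth n (v i)),
      h.prob_gam hI hSc hD hM hS hth n (v i)]
  rw [e1] at h1
  rw [h1]
  simp only [e2]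
  rw [Finset.prod_const, Finset.card_univ, Fintype.card_fin]

theorem LawP.prob_all (h : LawP d lam Pr T) (hI : ImgStatement) (hSc : InvScStatement)
    (hD : InvDStatement) (hM : InvMStatement) (hS : MSumStatement) {th : ℕ → ℝ}
    (hth : ∀ j, th j ≤ 2) (v : Eu d) :
    Pr {ω | ∀ n, gam th n v (T ω)} = ⨅ n, qq d lam th n := by
  have hprob := h.prob
  have e : {ω | ∀ n, gam th n v (T ω)} = ⋂ n, {ω | gam th n v (T ω)} := by
    ext ω; simp
  rw [e, Antitone.measure_iInter]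
  · exact iInf_congr fun n => h.prob_gam hI hSc hD hM hS hth n v
  · intro n m hnm ω hω
    exact gam_mono hnm hω
  · exact fun n => (h.meas_gam hD hM hS hth n v).nullMeasurableSet
  · exact ⟨0, measure_ne_top _ _⟩

/-- good at all steps near `v` and `w`, and the invasions meet -/
def met (th : ℕ → ℝ) (v w : Eu d) (Q : Set (Eu d)) : Prop :=
  ∃ x ∈ Q, ∃ y ∈ Q, x ∈ bal v 1 ∧ y ∈ bal w 1 ∧ (∀ n, good th Q x n) ∧ (∀ n, good th Q y n) ∧
    ∃ n, ¬ Disjoint (inv Q x n) (inv Q y n)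

theorem LawP.met_le (h : LawP d lam Pr T) (hD : InvDStatement) {th : ℕ → ℝ} {v w : Eu d}
    {c : ℝ≥0∞} (hc : ∀ n, Pr {ω | pev th n v w (T ω)} ≤ c) :
    Pr {ω | met th v w (T ω)} ≤ c := by
  have e : {ω | met th v w (T ω)} = ⋃ n : ℕ, {ω | ∃ x ∈ T ω, ∃ y ∈ T ω, x ∈ bal v 1 ∧
      y ∈ bal w 1 ∧ (∀ n, good th (T ω) x n) ∧ (∀ n, good th (T ω) y n) ∧
      ¬ Disjoint (inv (T ω) x n) (inv (T ω) y n)} := by
    ext ω
    simp only [met, mem_ofPred_eq, mem_iUnion]
    constructor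
    · rintro ⟨x, hx, y, hy, h1, h2, h3, h4, n, h5⟩
      exact ⟨n, x, hx, y, hy, h1, h2, h3, h4, h5⟩
    · rintro ⟨n, x, hx, y, hy, h1, h2, h3, h4, h5⟩
      exact ⟨x, hx, y, hy, h1, h2, h3, h4, n, h5⟩
  rw [e, Monotone.measure_iUnion]
  · refine iSup_le fun n => le_trans (measure_mono ?_) (hc n)
    rintro ω ⟨x, hx, y, hy, h1, h2, h3, h4, h5⟩
    exact ⟨x, hx, y, hy, h1, h2, h3 n, h4 n, h5⟩
  · intro n m hnm ω
    rintro ⟨x, hx, y, hy, h1, h2, h3, h4, h5⟩
    refine ⟨x, hx, y, hy, h1, h2, h3, h4, fun h6 => h5 ?_⟩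
    exact h6.mono (inv_mono hD (h.lf ω) x hnm) (inv_mono hD (h.lf ω) y hnm)

theorem LawP.dj (h : LawP d lam Pr T) (hR : ResStatement) (hPr : ProbStatement)
    (hMR : MRestrStatement) (hI : ImgStatement) (hSc : InvScStatement)
    (hD : InvDStatement) (hM : InvMStatement) (hS : MSumStatement) (hMe : MeckeStatement)
    (hO : MOpsStatement) (hd : 1 ≤ d) (hlam : 0 < lam) {th : ℕ → ℝ}
    (hth : ∀ j, th j ≤ 2) {p₀ : ℝ≥0} (hp₀ : 0 < p₀) {C' : ℝ} (hC' : 0 < C')
    (hp : ∀ (o : Eu d) (n : ℕ) (L : ℝ), 2 * n + 2 + ‖o‖ ≤ L →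
        (p₀ : ℝ≥0∞) ≤ PL (leb lam (bal (0 : Eu d) L)) {ω | good th (pt ω) o n})
    (hb : ∀ (x y : Eu d) (n : ℕ) (L : ℝ), 40 ≤ ‖x - y‖ → 2 * n + 4 + ‖x‖ ≤ L →
        2 * n + 4 + ‖y‖ ≤ L →
        ∫⁻ ω, ind (BadPair th x y n (pt ω)) ∂PL (leb lam (bal (0 : Eu d) L))
          ≤ ENNReal.ofReal (C' / ‖x - y‖)) (m : ℕ) :
    ∀ᵐ ω ∂Pr, DJ m (T ω) := by
  classical
  have hprob := h.prob
  set q : ℝ≥0∞ := ⨅ n, qq d lam th n with hq
  have hq0 : q ≠ 0 := by
    rw [hq, ← h.prob_all hI hSc hD hM hS hth 0]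
    exact h.qq_pos hI hSc hD hM hS hMe hPr hd hlam hth hp₀ hp
  have hqle : ∀ n, q ≤ qq d lam th n := fun n => iInf_le _ n
  have hq1 : 1 - q < 1 := ENNReal.sub_lt_self ENNReal.one_ne_top one_ne_zero hq0
  have hqtop : q ≠ ∞ := by
    rw [hq, ← h.prob_all hI hSc hD hM hS hth 0]
    exact measure_ne_top _ _
  have hnt : Nontrivial (Eu d) := by
    have : Nonempty (Fin d) := ⟨⟨0, by omega⟩⟩
    infer_instance
  obtain ⟨e, he⟩ := exists_norm_eq (Eu d) (zero_le_one (α := ℝ))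
  rw [ae_iff]
  refine le_antisymm (ENNReal.le_of_forall_pos_le_add fun η hη _ => ?_) zero_le
  rw [zero_add]
  -- three thirds
  set δ : ℝ≥0∞ := (η : ℝ≥0∞) / 3 with hδdef
  have hη0 : (η : ℝ≥0∞) ≠ 0 := ENNReal.coe_ne_zero.2 hη.ne'
  have hδ : 0 < δ := ENNReal.div_pos hη0 (by norm_num)
  have hδ' : δ ≠ ∞ := (ENNReal.div_lt_top ENNReal.coe_ne_top (by norm_num)).ne
  have hδ3 : δ + δ + δ = η := by
    rw [hδdef]
    exact ENNReal.add_thirds _
  obtain ⟨K, hK⟩ := exists_pow_small hq1 hδ m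
  -- the level
  obtain ⟨n0, hn0⟩ : ∃ n0, ((m * K : ℕ) : ℝ≥0∞) * (qq d lam th n0 - q) ≤ δ := by
    by_cases hmk : m * K = 0
    · exact ⟨0, by rw [hmk]; simp⟩
    have hmk' : ((m * K : ℕ) : ℝ≥0∞) ≠ 0 := by exact_mod_cast hmk
    have hpos : 0 < δ / ((m * K : ℕ) : ℝ≥0∞) := ENNReal.div_pos hδ.ne' (ENNReal.natCast_ne_top _)
    have h1 : (⨅ n, qq d lam th n) < q + δ / ((m * K : ℕ) : ℝ≥0∞) :=
      ENNReal.lt_add_right hqtop hpos.ne'
    obtain ⟨n0, hn0⟩ := iInf_lt_iff.1 h1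
    refine ⟨n0, ?_⟩
    have h2 : qq d lam th n0 - q ≤ δ / ((m * K : ℕ) : ℝ≥0∞) :=
      tsub_le_iff_left.2 hn0.le
    calc ((m * K : ℕ) : ℝ≥0∞) * (qq d lam th n0 - q)
        ≤ ((m * K : ℕ) : ℝ≥0∞) * (δ / ((m * K : ℕ) : ℝ≥0∞)) := mul_le_mul_right h2 _
      _ = δ := ENNReal.mul_div_cancel hmk' (ENNReal.natCast_ne_top _)
  -- the distance
  set β : ℝ≥0∞ := lam * volume (bal (0 : Eu d) 1) with hβ
  have hβtop : β ≠ ∞ := ENNReal.mul_ne_top ENNReal.coe_ne_top (dom_bal 0 1).2.measure_lt_top.ne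
  have hvol : ∀ v : Eu d, volume (bal v 1) = volume (bal (0 : Eu d) 1) := fun v =>
    Measure.addHaar_closedBall_center volume v 1
  obtain ⟨R, hR₀, hRδ⟩ := exists_far
    (M := ((m * K : ℕ) : ℝ≥0∞) * ((m * K : ℕ) : ℝ≥0∞) * (β * β))
    (ENNReal.mul_ne_top (ENNReal.mul_ne_top (ENNReal.natCast_ne_top _) (ENNReal.natCast_ne_top _))
      (ENNReal.mul_ne_top hβtop hβtop)) hC' hδ hδ' (max 42 (4 * n0 + 7))
  have hR42 : 42 ≤ R := (le_max_left _ _).trans hR₀
  have hRn : 4 * (n0 : ℝ) + 7 ≤ R := (le_max_right _ _).trans hR₀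
  -- the cells
  obtain ⟨v, hv⟩ : ∃ v : Fin m × Fin K → Eu d,
      ∀ i, v i = (((finProdFinEquiv i : Fin (m * K)) : ℕ) * R : ℝ) • e := ⟨_, fun _ => rfl⟩
  have hdist : ∀ i j, i ≠ j → R ≤ dist (v i) (v j) := by
    intro i j hij
    have hne : ((finProdFinEquiv i : Fin (m * K)) : ℕ) ≠ ((finProdFinEquiv j : Fin (m * K)) : ℕ) :=
      fun h' => hij (finProdFinEquiv.injective (Fin.ext h'))
    rw [hv, hv, dist_eq_norm, ← sub_smul, norm_smul, he, mul_one, ← sub_mul, norm_mul,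
      Real.norm_eq_abs, Real.norm_eq_abs, abs_of_pos (show 0 < R by linarith)]
    have h1 : (1 : ℝ) ≤ |((((finProdFinEquiv i : Fin (m * K)) : ℕ) : ℝ) -
        (((finProdFinEquiv j : Fin (m * K)) : ℕ) : ℝ))| := by
      have h2 : (1 : ℤ) ≤ |((((finProdFinEquiv i : Fin (m * K)) : ℕ) : ℤ) -
          (((finProdFinEquiv j : Fin (m * K)) : ℕ) : ℤ))| := by
        apply Int.one_le_abs
        omega
      exact_mod_cast h2
    nlinarith
  set E1 : Fin m → Set Ω := fun a => {ω | ∀ b : Fin K, ¬ gam th n0 (v (a, b)) (T ω)} with hE1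
  set E2 : Fin m × Fin K → Set Ω := fun i =>
    {ω | gam th n0 (v i) (T ω)} \ {ω | ∀ n, gam th n (v i) (T ω)} with hE2
  set E3 : (Fin m × Fin K) × (Fin m × Fin K) → Set Ω := fun p =>
    {ω | p.1 ≠ p.2 ∧ met th (v p.1) (v p.2) (T ω)} with hE3
  have m1 : ∀ a, Pr (E1 a) ≤ (1 - q) ^ K := by
    intro a
    have h1 := h.group hR hPr hMR hI hSc hD hM hS hth n0 (fun b => v (a, b)) (by
      intro b b' hbb
      refine hRn.trans (hdist _ _ fun h' => hbb ?_)
      exact (Prod.mk.inj h').2)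
    rw [hE1]
    simp only
    rw [h1]
    exact pow_le_pow_left' (tsub_le_tsub_left (hqle n0) 1) K
  have m2 : ∀ i, Pr (E2 i) ≤ qq d lam th n0 - q := by
    intro i
    have h1 : MeasurableSet {ω | ∀ n, gam th n (v i) (T ω)} := by
      have e : {ω | ∀ n, gam th n (v i) (T ω)} = ⋂ n, {ω | gam th n (v i) (T ω)} := by
        ext ω; simp
      rw [e]
      exact MeasurableSet.iInter fun n => h.meas_gam hD hM hS hth n (v i)
    rw [hE2]
    simp only
    rw [measure_sdiff (show {ω | ∀ n, gam th n (v i) (T ω)} ⊆ {ω | gam th n0 (v i) (T ω)} from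
      fun ω hω => hω n0) h1.nullMeasurableSet (measure_ne_top _ _),
      h.prob_gam hI hSc hD hM hS hth n0 (v i), h.prob_all hI hSc hD hM hS hth (v i)]
  have m3 : ∀ p, Pr (E3 p) ≤ β * (β * ENNReal.ofReal (C' / (R - 2))) := by
    intro p
    by_cases hp' : p.1 = p.2
    · have : E3 p = ∅ := by
        ext ω
        simp [hE3, hp']
      rw [this, measure_empty]
      exact zero_le
    · refine le_trans (measure_mono (fun ω hω => hω.2)) (h.met_le hD fun n => ?_)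
      have h1 := h.pev_le hMe hD hM hS hSc hO hd hth hC' hb (v p.1) (v p.2) R hR42
        (hdist _ _ hp') n
      rw [hvol (v p.1), hvol (v p.2)] at h1
      exact h1
  have hsub : {ω | ¬ DJ m (T ω)} ⊆ ((⋃ a, E1 a) ∪ ⋃ i, E2 i) ∪ ⋃ p, E3 p := by
    intro ω hω
    by_contra hcon
    simp only [mem_union, mem_iUnion, not_or, not_exists] at hcon
    obtain ⟨⟨c1, c2⟩, c3⟩ := hcon
    apply hω
    have h1 : ∀ a : Fin m, ∃ b : Fin K, gam th n0 (v (a, b)) (T ω) := by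
      intro a
      have := c1 a
      rw [hE1] at this
      simp only [mem_ofPred_eq, not_forall, not_not] at this
      exact this
    choose b hb' using h1
    have h2 : ∀ a : Fin m, ∃ x ∈ T ω, x ∈ bal (v (a, b a)) 1 ∧ ∀ n, good th (T ω) x n := by
      intro a
      refine gam_all (h.lf ω) ?_
      have := c2 (a, b a)
      rw [hE2] at this
      simp only [mem_sdiff, mem_ofPred_eq, not_and, not_not] at this
      exact this (hb' a)
    choose f hf1 hf2 hf3 using h2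
    refine ⟨f, hf1, fun a a' haa => ?_⟩
    have h3 := c3 ((a, b a), (a', b a'))
    rw [hE3] at h3
    simp only [mem_ofPred_eq, not_and] at h3
    have h4 := h3 (fun h' => haa (Prod.mk.inj h').1)
    have h5 : ∀ n, Disjoint (inv (T ω) (f a) n) (inv (T ω) (f a') n) := by
      intro n
      by_contra h6
      exact h4 ⟨f a, hf1 a, f a', hf1 a', hf2 a, hf2 a', hf3 a, hf3 a', n, h6⟩
    rw [Set.disjoint_left]
    intro z hz hz'
    obtain ⟨k, hk⟩ := mem_iUnion.mp hz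
    obtain ⟨l, hl⟩ := mem_iUnion.mp hz'
    exact Set.disjoint_left.mp (h5 (max k l))
      (inv_mono hD (h.lf ω) _ (le_max_left k l) hk) (inv_mono hD (h.lf ω) _ (le_max_right k l) hl)
  calc Pr {ω | ¬ DJ m (T ω)} ≤ Pr (((⋃ a, E1 a) ∪ ⋃ i, E2 i) ∪ ⋃ p, E3 p) := measure_mono hsub
    _ ≤ Pr (⋃ a, E1 a) + Pr (⋃ i, E2 i) + Pr (⋃ p, E3 p) :=
        (measure_union_le _ _).trans (add_le_add (measure_union_le _ _) le_rfl)
    _ ≤ δ + δ + δ := by
        refine add_le_add (add_le_add ?_ ?_) ?_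
        · refine (measure_iUnion_fintype_le _ _).trans ?_
          refine (Finset.sum_le_sum fun a _ => m1 a).trans ?_
          rw [Finset.sum_const, Finset.card_univ, Fintype.card_fin, nsmul_eq_mul]
          exact hK
        · refine (measure_iUnion_fintype_le _ _).trans ?_
          refine (Finset.sum_le_sum fun i _ => m2 i).trans ?_
          rw [Finset.sum_const, Finset.card_univ, Fintype.card_prod, Fintype.card_fin,
            Fintype.card_fin, nsmul_eq_mul]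
          exact hn0
        · refine (measure_iUnion_fintype_le _ _).trans ?_
          refine (Finset.sum_le_sum fun p _ => m3 p).trans ?_
          rw [Finset.sum_const, Finset.card_univ, Fintype.card_prod, Fintype.card_prod,
            Fintype.card_fin, Fintype.card_fin, nsmul_eq_mul]
          refine le_trans (le_of_eq ?_) hRδ
          push_cast
          ring
    _ = η := hδ3

end Pool.Agent.Lib.MP_5349a4_pr.Hedge2
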