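import Pool.Agent.Lib.MP_5349a4_pr.M.H98.All

/-!
# Theorem A with an explicit dimension

The final steps of the modules FAR, NEAR, ERRB, BOOT, THMA, with the explicit lower bound
`1225000` for the dimension instead of an unspecified one.
-/

set_option autoImplicit false
open MeasureTheory Set Filter
open scoped ENNReal NNReal Topology

namespace Pool.Agent.Lib.MP_5349a4_pr.Hedge2.Expl

open Pool.Agent.Lib.MP_5349a4_pr Pool.Agent.Lib.MP_5349a4_pr.H81 Pool.Agent.Lib.MP_5349a4_pr.H70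
open Pool.Agent.Lib.MP_5349a4_pr.H63

/-- FAR, explicit. -/
def FarX : Prop :=
  ∀ d : ℕ, 1225000 ≤ d → TauFacts d → ∀ lam : ℝ≥0, Hyp d lam →
    (∀ i : ℕ, 1 ≤ i →
      Kt d lam (2 ^ i) * 2 ^ (i * (d - 1)) ≤ 20 * 2 ^ d * (Gam d : ℝ≥0∞) ^ (4 * i + 42)) ∧
    (∀ j : ℕ, j ≤ 3 →
      (lam : ℝ≥0∞) ^ (j + 1) * ∫⁻ z in bal (0 : Eu d) 16, cpow (tI lam) j z
        ≤ 2 * (Gam d : ℝ≥0∞) ^ 61)

/-- NEAR, explicit. -/
def NearX : Prop :=
  ∀ d : ℕ, 1225000 ≤ d → TauFacts d → ∀ lam : ℝ≥0, Hyp d lam →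
    Kt d lam 0 ≤ ((368 : ℝ≥0) : ℝ≥0∞) * ENNReal.ofReal ((9 / 10 : ℝ) ^ d) * (Gam d : ℝ≥0∞) ^ 61

/-- ERRB, explicit. -/
def ErrBX : Prop :=
  ∀ d : ℕ, 1225000 ≤ d → TauFacts d → ∀ lam : ℝ≥0, Hyp d lam → ∀ s : ℝ, 0 ≤ s →
    Err d lam s ≤ (gd d / 2 : ℝ≥0)

/-- BOOT, explicit. -/
def BootX : Prop :=
  ∀ d : ℕ, 1225000 ≤ d → ∃ lam : ℝ≥0, 0 < lam ∧ Hyp d lam ∧ ∀ s : ℝ, 0 ≤ s → 1 ≤ phi d lam s

/-- Theorem A, explicit. -/
def ThmAX : Prop :=
  ∀ d : ℕ, 1225000 ≤ d → ∃ (lam : ℝ≥0) (κ : ℕ) (A : ℝ≥0), Crit d lam κ A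

/-- the power of two above `12800 d` -/
theorem exists_k {d : ℕ} (hd : 1225000 ≤ d) :
    ∃ k : ℕ, (12800 * (d : ℝ)) ≤ 2 ^ k ∧ 1000 * (1 + k) ^ 2 ≤ d := by
  refine ⟨Nat.clog 2 (12800 * d), ?_, clog_sq d hd⟩
  have h : 12800 * d ≤ 2 ^ (Nat.clog 2 (12800 * d)) := Nat.le_pow_clog (by norm_num) _
  exact_mod_cast h

theorem big_ex {d : ℕ} (hd : 1225000 ≤ d) : (2 : ℝ≥0) ^ 10 * Gam d ^ 5 ≤ 2 ^ d := by
  obtain ⟨k, h1, h2⟩ := exists_k hd
  rw [← NNReal.coe_le_coe]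
  push_cast [Gam]
  calc (2 : ℝ) ^ 10 * (12800 * (d : ℝ)) ^ 5 ≤ 2 ^ 10 * (2 ^ k) ^ 5 := by gcongr
    _ = 2 ^ (10 + 5 * k) := by rw [← pow_mul, ← pow_add]; congr 1; ring
    _ ≤ 2 ^ d := pow_le_pow_right₀ (by norm_num) (by nlinarith)

theorem large_ex {d : ℕ} (hd : 1225000 ≤ d) :
    ((368 : ℝ≥0) : ℝ) * (12800 * (d : ℝ)) ^ 67 * (9 / 10 : ℝ) ^ d ≤ 1 / 2 ∧
    160 * (12800 * (d : ℝ)) ^ 57 * (1 / 2 : ℝ) ^ d ≤ 1 / 2 ∧
    4 * (12800 * (d : ℝ)) ^ 5 * (1 / 2 : ℝ) ^ d ≤ 1 := by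
  obtain ⟨k, h1, h2⟩ := exists_k hd
  have key : ∀ (n m : ℕ), m * k + n ≤ d → (12800 * (d : ℝ)) ^ m * (1 / 2 : ℝ) ^ d ≤ (1 / 2) ^ n := by
    intro n m h
    calc (12800 * (d : ℝ)) ^ m * (1 / 2 : ℝ) ^ d
        ≤ (2 ^ k) ^ m * (1 / 2 : ℝ) ^ (m * k + n) := by
          refine mul_le_mul (pow_le_pow_left₀ (by positivity) h1 m)
            (pow_le_pow_of_le_one (by norm_num) (by norm_num) h) (by positivity) (by positivity)
      _ = (1 / 2) ^ n := by
          rw [pow_add, ← mul_assoc, ← pow_mul, mul_comm k m, one_div, inv_pow, inv_pow,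
            mul_inv_cancel₀ (by positivity), one_mul]
  refine ⟨?_, ?_, ?_⟩
  · have h3 : (9 / 10 : ℝ) ^ d ≤ (1 / 2) ^ (67 * k + 10) := by
      calc (9 / 10 : ℝ) ^ d ≤ (9 / 10 : ℝ) ^ (7 * (67 * k + 10)) :=
            pow_le_pow_of_le_one (by norm_num) (by norm_num) (by nlinarith)
        _ = ((9 / 10 : ℝ) ^ 7) ^ (67 * k + 10) := pow_mul _ _ _
        _ ≤ (1 / 2) ^ (67 * k + 10) := pow_le_pow_left₀ (by positivity) (by norm_num) _
    calc ((368 : ℝ≥0) : ℝ) * (12800 * (d : ℝ)) ^ 67 * (9 / 10 : ℝ) ^ d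
        ≤ 368 * (2 ^ k) ^ 67 * (1 / 2) ^ (67 * k + 10) := by
          refine mul_le_mul (mul_le_mul (by norm_num) (pow_le_pow_left₀ (by positivity) h1 67)
            (by positivity) (by norm_num)) h3 (by positivity) (by positivity)
      _ = 368 * (1 / 2) ^ 10 * ((2 ^ k) ^ 67 * ((1 / 2) ^ (67 * k))) := by
          rw [pow_add]; ring
      _ = 368 * (1 / 2) ^ 10 := by
          rw [← pow_mul, mul_comm k 67, one_div, inv_pow, inv_pow,
            mul_inv_cancel₀ (by positivity), mul_one]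
      _ ≤ 1 / 2 := by norm_num
  · have h3 := key 9 57 (by nlinarith)
    calc 160 * (12800 * (d : ℝ)) ^ 57 * (1 / 2 : ℝ) ^ d
        = 160 * ((12800 * (d : ℝ)) ^ 57 * (1 / 2 : ℝ) ^ d) := by ring
      _ ≤ 160 * (1 / 2) ^ 9 := by gcongr
      _ ≤ 1 / 2 := by norm_num
  · have h3 := key 2 5 (by nlinarith)
    calc 4 * (12800 * (d : ℝ)) ^ 5 * (1 / 2 : ℝ) ^ d
        = 4 * ((12800 * (d : ℝ)) ^ 5 * (1 / 2 : ℝ) ^ d) := by ring
      _ ≤ 4 * (1 / 2) ^ 2 := by gcongr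
      _ ≤ 1 := by norm_num

theorem farx (hT : TInfStatement) (hV : VstStatement) (hP : PtwStatement) (hS : SlbStatement) :
    FarX := by
  intro d hd T lam H
  have hd1 : 1 ≤ d := by omega
  obtain ⟨T1, T2, -, -, -, -, T7⟩ := hT d hd1 T lam
  have hF : FarHyp d lam := by
    refine ⟨T1, ?_, ?_, by exact_mod_cast big_ex hd, hd1, ?_⟩
    · intro l hl z hz
      unfold tI
      refine iSup_le fun n => ?_
      unfold tl
      have h2 : (2 : ℝ≥0∞) ^ (l * (d - 1)) ≠ 0 := by positivity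
      have h3 : (2 : ℝ≥0∞) ^ (l * (d - 1)) ≠ ∞ := ENNReal.pow_ne_top (by norm_num)
      rw [ENNReal.le_div_iff_mul_le (Or.inl h2) (Or.inl h3)]
      exact hP d (by omega) T lam H l (bal 0 n) 0 z (dom_bal _ _) hl (by simpa using hz)
    · intro l
      have h1 := T7 (2 ^ l) ((Gam d : ℝ≥0∞) ^ (l + 9))
        (fun V hVd => hV d (by omega) T lam H l V 0 0 hVd)
      refine le_trans (mul_le_mul' le_rfl ?_) h1
      have hmeas : MeasurableSet (bal (0 : Eu d) (2 ^ l)) := (dom_bal _ _).1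
      rw [← lintegral_mul_ind hmeas]
      refine lintegral_mono fun z => ?_
      unfold Xl
      rw [mul_comm]
      refine mul_le_mul' (ind_mono fun h => ?_) le_rfl
      show dist z 0 ≤ 2 ^ l
      rw [dist_zero_right]; exact h.le
    · obtain ⟨-, -, S3, -, -, -⟩ := hS d hd1 T
      rw [← S3 lam]
      refine (H 0 le_rfl).trans ?_
      have hg : gd d ≤ 1 := by
        unfold gd
        have hd' : (1 : ℝ≥0) ≤ d := by exact_mod_cast hd1
        rw [one_div]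
        apply inv_le_one_of_one_le₀
        calc (1 : ℝ≥0) ≤ 6400 * 1 := by norm_num
          _ ≤ 6400 * d := by gcongr
      calc (1 : ℝ≥0∞) + gd d ≤ 1 + (1 : ℝ≥0) := by gcongr
        _ = 2 := by norm_num
  refine ⟨fun i hi => ?_, fun j hj => far_i hF j hj⟩
  have h1 := far_g hF i hi 1 (by norm_num)
  have h2 := far_g hF i hi 2 (by norm_num)
  have hK : Kt d lam (2 ^ i) ≤ 20 * ql d i := by
    unfold Kt tri box
    calc 2 * ((lam : ℝ≥0∞) ^ 2 * ∫⁻ u : Eu d, ind (2 ^ i ≤ ‖u‖) *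
          (tI lam u * conv (tI lam) (tI lam) u)) +
        (lam : ℝ≥0∞) ^ 3 * ∫⁻ u : Eu d, ind (2 ^ i ≤ ‖u‖) *
          (tI lam u * conv (tI lam) (conv (tI lam) (tI lam)) u)
        ≤ 2 * (2 * ((1 : ℕ) + 2) * ql d i) + 2 * ((2 : ℕ) + 2) * ql d i :=
          add_le_add (mul_le_mul' le_rfl h1) h2
      _ = 20 * ql d i := by
          push_cast
          ring
  calc Kt d lam (2 ^ i) * 2 ^ (i * (d - 1)) ≤ (20 * ql d i) * 2 ^ (i * (d - 1)) := by gcongr
    _ = 20 * 2 ^ d * (Gam d : ℝ≥0∞) ^ (4 * i + 42) := by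
        unfold ql
        have h2 : (2 : ℝ≥0∞) ^ (i * (d - 1)) ≠ 0 := by positivity
        have h3 : (2 : ℝ≥0∞) ^ (i * (d - 1)) ≠ ∞ := ENNReal.pow_ne_top (by norm_num)
        rw [mul_assoc, ENNReal.div_mul_cancel h2 h3]
        ring

theorem nearx (hI : TInfStatement) (hF : FarX) (hL : LensStatement) (hS : SlbStatement) :
    NearX := by
  intro d hd ht lam hH
  have hd1 : 1 ≤ d := by omega
  obtain ⟨hTm, hT1, hTe, -, hTD, -, -⟩ := hI d hd1 ht lam
  obtain ⟨-, hFar⟩ := hF d hd ht lam hH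
  have hphi : phi d lam 0 = lam * volume (bal (0 : Eu d) 1) := (hS d hd1 ht).2.2.1 lam
  set T : Eu d → ℝ≥0∞ := tI lam with hTdef
  set D : Eu d → ℝ≥0∞ := fun u => ind (‖u‖ ≤ 1) with hDdef
  set L : ℝ≥0∞ := (lam : ℝ≥0∞) with hLdef
  set v : ℝ≥0∞ := volume (bal (0 : Eu d) 1) with hv
  set q : ℝ≥0∞ := ENNReal.ofReal ((9 / 10 : ℝ) ^ d) with hq
  set Γ : ℝ≥0∞ := (Gam d : ℝ≥0∞) with hΓ
  have hDm : Measurable D := measurable_ind (measurableSet_le measurable_norm measurable_const)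
  -- mass of the unit ball
  have hmu : L * v ≤ 2 := by
    rw [← hphi]
    refine (hH 0 le_rfl).trans ?_
    have : (gd d : ℝ≥0∞) ≤ 1 := by
      have h1 : gd d ≤ 1 := by
        unfold gd
        have : (1 : ℝ≥0) ≤ 6400 * (d : ℝ≥0) := by
          have : (1 : ℝ≥0) ≤ (d : ℝ≥0) := by exact_mod_cast hd1
          calc (1 : ℝ≥0) ≤ 6400 * 1 := by norm_num
            _ ≤ 6400 * (d : ℝ≥0) := by gcongr
        rw [one_div]
        exact inv_le_one_of_one_le₀ this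
      exact_mod_cast h1
    calc (1 : ℝ≥0∞) + (gd d : ℝ≥0∞) ≤ 1 + 1 := by gcongr
      _ = 2 := by norm_num
  have hΓ1 : 1 ≤ Γ ^ 61 := by
    apply one_le_pow₀
    rw [hΓ]
    have h1 : (1 : ℝ≥0) ≤ Gam d := by
      unfold Gam
      have : (1 : ℝ≥0) ≤ (d : ℝ≥0) := by exact_mod_cast hd1
      calc (1 : ℝ≥0) ≤ 12800 * 1 := by norm_num
        _ ≤ 12800 * (d : ℝ≥0) := by gcongr
    exact_mod_cast h1
  -- the function `G = D * D * D`
  set G : Eu d → ℝ≥0∞ := conv D (conv D D) with hG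
  have hGm : Measurable G := conv_meas hDm (conv_meas hDm hDm)
  set m : ℝ≥0∞ := 2 * q * v ^ 2 with hm
  have hGle : ∀ z, G z ≤ m := fun z => hL d hd1 z
  have hDs : ∀ u, D u ≠ 0 → ‖u‖ ≤ 1 := by
    intro u hu
    by_contra hc
    exact hu (ind_not hc)
  have hGs : ∀ z, G z ≠ 0 → ‖z‖ ≤ 16 := by
    intro z hz
    have := supp_conv hDs (supp_conv hDs hDs) z hz
    linarith
  -- the bounds for the convolutions with `G`
  have hcm : ∀ j, Measurable (cpow T j) := by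
    intro j
    induction j with
    | zero => exact hTm
    | succ j ih => exact conv_meas hTm ih
  set B : ℝ≥0∞ := 2 * Γ ^ 61 with hB
  have hc : ∀ j, j ≤ 3 → L ^ (j + 1) * conv (cpow T j) G 0 ≤ m * B := by
    intro j hj
    calc L ^ (j + 1) * conv (cpow T j) G 0
        ≤ L ^ (j + 1) * (m * ∫⁻ z in bal (0 : Eu d) 16, cpow T j z) := by
          gcongr
          exact conv_zero_le (hcm j) hGle hGs
      _ = m * (L ^ (j + 1) * ∫⁻ z in bal (0 : Eu d) 16, cpow T j z) := by ring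
      _ ≤ m * B := by
          gcongr
          exact hFar j hj
  have c0 : L * conv T G 0 ≤ m * B := by simpa [cpow] using hc 0 (by norm_num)
  have c1 : L ^ 2 * conv (cpow T 1) G 0 ≤ m * B := hc 1 (by norm_num)
  have c2 : L ^ 3 * conv (cpow T 2) G 0 ≤ m * B := hc 2 (by norm_num)
  have c3 : L ^ 4 * conv (cpow T 3) G 0 ≤ m * B := hc 3 (by norm_num)
  have hTS : ∀ z, T z ≤ Sop T L D z := by
    intro z
    have := hTD z
    unfold Sop
    rw [conv_comm T D]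
    exact this
  have h3 := three hTm hDm hTS
  -- the triangle
  have htri : tri d lam 0 ≤ L ^ 2 * (m * (1 + 7 * B)) := by
    unfold tri
    gcongr
    have e : ∀ u : Eu d, ind ((0 : ℝ) ≤ ‖u‖) * (tI lam u * conv (tI lam) (tI lam) u)
        = T u * conv T T u := by
      intro u
      rw [ind_of (norm_nonneg u), one_mul]
    simp only [e]
    rw [int_even hTe]
    refine (h3 0).trans ?_
    rw [expand hTm hGm]
    calc G 0 + 3 * (L * conv T G 0) + 3 * (L ^ 2 * conv (cpow T 1) G 0)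
          + L ^ 3 * conv (cpow T 2) G 0
        ≤ m + 3 * (m * B) + 3 * (m * B) + m * B := by
          gcongr
          exact hGle 0
      _ = m * (1 + 7 * B) := by ring
  have hbox : box d lam 0 ≤ L ^ 2 * (m * (8 * B)) := by
    unfold box
    have e : ∀ u : Eu d, ind ((0 : ℝ) ≤ ‖u‖) *
        (tI lam u * conv (tI lam) (conv (tI lam) (tI lam)) u) = T u * conv T (conv T T) u := by
      intro u
      rw [ind_of (norm_nonneg u), one_mul]
    simp only [e]
    rw [int_even hTe]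
    have h4 : conv T (conv T (conv T T)) 0 ≤ conv T G 0 + 3 * (L * conv (cpow T 1) G 0)
        + 3 * (L ^ 2 * conv (cpow T 2) G 0) + L ^ 3 * conv (cpow T 3) G 0 := by
      refine (conv_mono h3 0).trans ?_
      rw [conv_Sop hTm (Sop_meas hTm (Sop_meas hTm hGm)) hTm,
        conv_Sop hTm (Sop_meas hTm hGm) hTm, conv_Sop hTm hGm hTm,
        expand hTm (conv_meas hTm hGm)]
      have e1 : conv T (conv T G) = conv (cpow T 1) G := by
        rw [conv_assoc hTm hTm hGm]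
        rfl
      have e2 : conv (cpow T 1) (conv T G) = conv (cpow T 2) G := by
        rw [conv_left_comm (hcm 1) hTm hGm, conv_assoc hTm (hcm 1) hGm]
        rfl
      have e3 : conv (cpow T 2) (conv T G) = conv (cpow T 3) G := by
        rw [conv_left_comm (hcm 2) hTm hGm, conv_assoc hTm (hcm 2) hGm]
        rfl
      rw [e1, e2, e3]
    calc L ^ 3 * conv T (conv T (conv T T)) 0
        ≤ L ^ 3 * (conv T G 0 + 3 * (L * conv (cpow T 1) G 0)
          + 3 * (L ^ 2 * conv (cpow T 2) G 0) + L ^ 3 * conv (cpow T 3) G 0) := by gcongr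
      _ = L ^ 2 * (L * conv T G 0 + 3 * (L ^ 2 * conv (cpow T 1) G 0)
          + 3 * (L ^ 3 * conv (cpow T 2) G 0) + L ^ 4 * conv (cpow T 3) G 0) := by ring
      _ ≤ L ^ 2 * (m * B + 3 * (m * B) + 3 * (m * B) + m * B) := by gcongr
      _ = L ^ 2 * (m * (8 * B)) := by ring
  unfold Kt
  calc 2 * tri d lam 0 + box d lam 0
      ≤ 2 * (L ^ 2 * (m * (1 + 7 * B))) + L ^ 2 * (m * (8 * B)) := by gcongr
    _ = 2 * q * (L * v) ^ 2 * (2 + 44 * Γ ^ 61) := by
        rw [hm, hB]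
        ring
    _ ≤ 2 * q * 2 ^ 2 * (2 * Γ ^ 61 + 44 * Γ ^ 61) := by
        gcongr
        calc (2 : ℝ≥0∞) = 2 * 1 := by ring
          _ ≤ 2 * Γ ^ 61 := by gcongr
    _ = (368 : ℝ≥0∞) * q * Γ ^ 61 := by ring
    _ = ((368 : ℝ≥0) : ℝ≥0∞) * q * Γ ^ 61 := by norm_num

theorem errbx (hF : FarX) (hN : NearX) (hDep : DepStatement) : ErrBX := by
  obtain ⟨C, hC⟩ : ∃ C : ℝ≥0, C = 368 := ⟨_, rfl⟩
  intro d hd ht lam hH s hs
  have hd0 : 1 ≤ d := by omega
  obtain ⟨hFar, -⟩ := hF d hd ht lam hH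
  have hNear := hN d hd ht lam hH
  obtain ⟨r1, r2, r3⟩ := large_ex hd
  rw [← hC] at hNear r1
  have hErr := Err_le hd0 ht lam hH hDep s hs
  -- real numbers
  have hdr : (0 : ℝ) < d := by exact_mod_cast hd0
  obtain ⟨G, hG⟩ : ∃ G : ℝ, G = 12800 * (d : ℝ) := ⟨_, rfl⟩
  rw [← hG] at r1 r2 r3
  have hGpos : 0 < G := by rw [hG]; positivity
  have hΓ : (Gam d : ℝ≥0∞) = ENNReal.ofReal G := by
    rw [← ENNReal.ofReal_coe_nnreal]
    congr 1
    rw [hG]
    unfold Gam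
    push_cast
    rfl
  obtain ⟨p, hp⟩ : ∃ p : ℝ, p = 2 ^ (d - 1) := ⟨_, rfl⟩
  have hppos : 0 < p := by rw [hp]; positivity
  have hp2 : (2 : ℝ) ^ d = 2 * p := by
    rw [hp, ← pow_succ']
    congr 1
    omega
  have hph : (1 / 2 : ℝ) ^ d = 1 / (2 * p) := by
    rw [one_div, inv_pow, hp2, one_div]
  have hg : ((gd d / 2 : ℝ≥0) : ℝ≥0∞) = ENNReal.ofReal (1 / G) := by
    rw [← ENNReal.ofReal_coe_nnreal]
    congr 1
    unfold gd
    push_cast
    rw [hG]
    field_simp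
    norm_num
  -- the first term
  have t0 : Kt d lam (lev 0) * (Gam d : ℝ≥0∞) ^ (0 + 5)
      ≤ ENNReal.ofReal (C * (9 / 10 : ℝ) ^ d * G ^ 66) := by
    show Kt d lam 0 * (Gam d : ℝ≥0∞) ^ 5 ≤ _
    calc Kt d lam 0 * (Gam d : ℝ≥0∞) ^ 5
        ≤ C * ENNReal.ofReal ((9 / 10 : ℝ) ^ d) * (Gam d : ℝ≥0∞) ^ 61 * (Gam d : ℝ≥0∞) ^ 5 := by
          gcongr
      _ = ENNReal.ofReal (C * (9 / 10 : ℝ) ^ d * G ^ 66) := by
          rw [hΓ, mul_assoc, ← pow_add, ENNReal.ofReal_mul (by positivity),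
            ENNReal.ofReal_mul (by positivity), ENNReal.ofReal_pow hGpos.le,
            ENNReal.ofReal_coe_nnreal]
  -- the other terms
  have tn : ∀ n : ℕ, Kt d lam (lev (n + 1)) * (Gam d : ℝ≥0∞) ^ (n + 1 + 5)
      ≤ ENNReal.ofReal (40 * G ^ 56 / p) * 2⁻¹ ^ n := by
    intro n
    have h := hFar (n + 2) (by omega)
    have hP0 : (2 : ℝ≥0∞) ^ ((n + 2) * (d - 1)) ≠ 0 := by positivity
    have hPt : (2 : ℝ≥0∞) ^ ((n + 2) * (d - 1)) ≠ ∞ := ENNReal.pow_ne_top (by norm_num)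
    have h1 : Kt d lam (lev (n + 1))
        ≤ 20 * 2 ^ d * (Gam d : ℝ≥0∞) ^ (4 * (n + 2) + 42) / 2 ^ ((n + 2) * (d - 1)) := by
      rw [ENNReal.le_div_iff_mul_le (Or.inl hP0) (Or.inl hPt)]
      exact h
    have hhalf : (2⁻¹ : ℝ≥0∞) ^ n = ENNReal.ofReal ((1 / 2 : ℝ) ^ n) := by
      rw [ENNReal.ofReal_pow (by norm_num)]
      congr 1
      rw [one_div, ENNReal.ofReal_inv_of_pos (by norm_num)]
      norm_num
    have h2 : (20 : ℝ≥0∞) * 2 ^ d * (Gam d : ℝ≥0∞) ^ (4 * (n + 2) + 42) / 2 ^ ((n + 2) * (d - 1))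
        = ENNReal.ofReal (20 * 2 ^ d * G ^ (4 * (n + 2) + 42) / p ^ (n + 2)) := by
      rw [ENNReal.ofReal_div_of_pos (by positivity), ENNReal.ofReal_mul (by positivity),
        ENNReal.ofReal_mul (by positivity), ENNReal.ofReal_pow (by norm_num),
        ENNReal.ofReal_pow hGpos.le, hΓ, hp, ← pow_mul, ENNReal.ofReal_pow (by norm_num),
        mul_comm (d - 1) (n + 2)]
      norm_num
    calc Kt d lam (lev (n + 1)) * (Gam d : ℝ≥0∞) ^ (n + 1 + 5)
        ≤ ENNReal.ofReal (20 * 2 ^ d * G ^ (4 * (n + 2) + 42) / p ^ (n + 2)) *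
          (Gam d : ℝ≥0∞) ^ (n + 1 + 5) := by
          gcongr
          exact h1.trans_eq h2
      _ = ENNReal.ofReal (20 * 2 ^ d * G ^ (4 * (n + 2) + 42) / p ^ (n + 2) * G ^ (n + 1 + 5)) := by
          rw [hΓ, ENNReal.ofReal_mul (by positivity), ENNReal.ofReal_pow hGpos.le]
      _ ≤ ENNReal.ofReal (40 * G ^ 56 / p * (1 / 2) ^ n) := by
          apply ENNReal.ofReal_le_ofReal
          rw [hp2]
          have e : 20 * (2 * p) * G ^ (4 * (n + 2) + 42) / p ^ (n + 2) * G ^ (n + 1 + 5)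
              = 40 * G ^ 56 / p * (G ^ 5 / p) ^ n := by
            have hp0 : p ≠ 0 := hppos.ne'
            have a1 : G ^ (4 * (n + 2) + 42) * G ^ (n + 1 + 5) = G ^ 56 * (G ^ 5) ^ n := by
              rw [← pow_add, ← pow_mul, ← pow_add]
              congr 1
              ring
            calc 20 * (2 * p) * G ^ (4 * (n + 2) + 42) / p ^ (n + 2) * G ^ (n + 1 + 5)
                = 40 * p * (G ^ (4 * (n + 2) + 42) * G ^ (n + 1 + 5)) / p ^ (n + 2) := by ring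
              _ = 40 * p * (G ^ 56 * (G ^ 5) ^ n) / (p ^ n * p ^ 2) := by rw [a1, pow_add]
              _ = 40 * G ^ 56 / p * (G ^ 5 / p) ^ n := by
                  rw [div_pow]
                  field_simp
          rw [e]
          have h5 : G ^ 5 / p ≤ 1 / 2 := by
            rw [hph] at r3
            rw [div_le_iff₀ hppos]
            have : 4 * G ^ 5 * (1 / (2 * p)) = 2 * G ^ 5 / p := by
              have : p ≠ 0 := hppos.ne'
              field_simp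
              ring
            rw [this, div_le_one hppos] at r3
            linarith
          gcongr
      _ = ENNReal.ofReal (40 * G ^ 56 / p) * 2⁻¹ ^ n := by
          rw [ENNReal.ofReal_mul (by positivity), hhalf]
  have hsum : ∑' n : ℕ, Kt d lam (lev n) * (Gam d : ℝ≥0∞) ^ (n + 5)
      ≤ ENNReal.ofReal (C * (9 / 10 : ℝ) ^ d * G ^ 66) + ENNReal.ofReal (80 * G ^ 56 / p) := by
    rw [tsum_eq_zero_add' ENNReal.summable]
    refine add_le_add t0 ?_
    refine (ENNReal.tsum_le_tsum tn).trans ?_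
    rw [ENNReal.tsum_mul_left, ENNReal.tsum_geometric, ENNReal.one_sub_inv_two, inv_inv]
    have : (2 : ℝ≥0∞) = ENNReal.ofReal 2 := by norm_num
    rw [this, ← ENNReal.ofReal_mul (by positivity)]
    apply ENNReal.ofReal_le_ofReal
    apply le_of_eq
    ring
  refine hErr.trans (hsum.trans ?_)
  rw [← ENNReal.ofReal_add (by positivity) (by positivity), hg]
  apply ENNReal.ofReal_le_ofReal
  rw [le_div_iff₀ hGpos]
  have e1 : (C * (9 / 10 : ℝ) ^ d * G ^ 66 + 80 * G ^ 56 / p) * G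
      = C * G ^ 67 * (9 / 10 : ℝ) ^ d + 160 * G ^ 57 * (1 / 2 : ℝ) ^ d := by
    rw [hph]
    have : p ≠ 0 := hppos.ne'
    field_simp
    ring
  rw [e1]
  linarith

theorem bootx (hSub : SubcStatement) (hE : ErrBX) (hR : RevStatement) (hT : TauFStatement)
    (hS : SlbStatement) : BootX := by
  intro d hd
  have hd1 : 1 ≤ d := by omega
  have ht : TauFacts d := hT d hd1
  have hphi : ∀ lam, phi d lam 0 = lam * volume (bal (0 : Eu d) 1) := (hS d hd1 ht).2.2.1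
  have hhalf := half_bound hd1 ht (hE d hd ht) (hR d hd1) hSub
  obtain ⟨hchi, hmono, hlip, htail, hsmall⟩ := hSub d hd1 ht
  have hg := gd_pos d hd1
  have hvp := vol_pos d
  have hvt := vol_lt_top d
  set v : ℝ≥0∞ := volume (bal (0 : Eu d) 1) with hv
  have hvr : 0 < v.toNNReal := ENNReal.toNNReal_pos hvp.ne' hvt.ne
  have hvc : (v.toNNReal : ℝ≥0∞) = v := ENNReal.coe_toNNReal hvt.ne
  -- a positive element
  have hpos : (1 / 2 / v.toNNReal : ℝ≥0) ∈ Lam d := by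
    refine ⟨0, le_rfl, ?_⟩
    have e : ((1 / 2 / v.toNNReal : ℝ≥0) : ℝ≥0∞) * v = ((1 / 2 : ℝ≥0) : ℝ≥0∞) := by
      conv_lhs => rw [← hvc]
      rw [ENNReal.toNNReal_coe, ← ENNReal.coe_mul, div_mul_cancel₀ _ hvr.ne']
    rw [hphi, e]
    have : (1 / 2 : ℝ≥0) < 1 := by
      rw [div_lt_one (by norm_num)]
      norm_num
    exact_mod_cast this
  -- bounded
  have hbd : BddAbove (Lam d) := by
    refine ⟨(1 + gd d / 2) / v.toNNReal, ?_⟩
    intro lam hlam
    have := hhalf lam hlam 0 le_rfl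
    rw [hphi, ← hvc, ← ENNReal.coe_mul] at this
    rw [le_div_iff₀ hvr]
    exact_mod_cast this
  have hdown : ∀ lam lam' : ℝ≥0, lam ≤ lam' → lam' ∈ Lam d → lam ∈ Lam d := by
    rintro lam lam' h ⟨s, hs, hp⟩
    exact ⟨s, hs, (hmono lam lam' s hs h).trans_lt hp⟩
  set lc : ℝ≥0 := sSup (Lam d) with hlc
  have hlcpos : 0 < lc := lt_of_lt_of_le (by positivity) (le_csSup hbd hpos)
  refine ⟨lc, hlcpos, ?_, ?_⟩
  · -- (H) at the critical point
    intro s hs
    obtain ⟨C, hC⟩ := hlip lc s.toNNReal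
    obtain ⟨δ, hδ, hCδ⟩ : ∃ δ : ℝ≥0, 0 < δ ∧ C * δ ≤ gd d / 2 := by
      refine ⟨gd d / 2 / (C + 1), by positivity, ?_⟩
      have : C * (gd d / 2 / (C + 1)) ≤ (C + 1) * (gd d / 2 / (C + 1)) := by
        gcongr
        exact le_self_add
      refine this.trans ?_
      rw [mul_div_cancel₀]
      positivity
    have hlt : lc - δ < lc := tsub_lt_self hlcpos hδ
    obtain ⟨l2, hl2, hl2'⟩ := exists_lt_of_lt_csSup ⟨_, hpos⟩ hlt
    have hmem : lc - δ ∈ Lam d := hdown _ _ hl2'.le hl2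
    calc phi d lc s ≤ phi d (lc - δ) s + C * ((lc - (lc - δ) : ℝ≥0) : ℝ≥0∞) :=
          hC _ _ s hs (by rw [Real.coe_toNNReal _ hs]) hlt.le le_rfl
      _ ≤ 1 + ((gd d / 2 : ℝ≥0) : ℝ≥0∞) + ((gd d / 2 : ℝ≥0) : ℝ≥0∞) := by
          gcongr
          · exact hhalf _ hmem s hs
          · rw [← ENNReal.coe_mul]
            have : C * (lc - (lc - δ)) ≤ gd d / 2 := by
              refine le_trans ?_ hCδ
              gcongr
              exact tsub_tsub_le
            exact_mod_cast this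
      _ = 1 + (gd d : ℝ≥0∞) := by
          rw [add_assoc, ← ENNReal.coe_add, add_halves]
  · intro s hs
    by_contra hcon
    push Not at hcon
    obtain ⟨C, hC⟩ := hlip (lc + 1) s.toNNReal
    obtain ⟨ε, hε, hε1⟩ : ∃ ε : ℝ≥0, 0 < ε ∧ phi d lc s + ε < 1 := by
      obtain ⟨ε, hε, h⟩ := ENNReal.lt_iff_exists_add_pos_lt.1 hcon
      exact ⟨ε, hε, h⟩
    obtain ⟨δ, hδ, hδ1, hCδ⟩ : ∃ δ : ℝ≥0, 0 < δ ∧ δ ≤ 1 ∧ C * δ ≤ ε := by
      refine ⟨min 1 (ε / (C + 1)), by positivity, min_le_left _ _, ?_⟩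
      have : C * min 1 (ε / (C + 1)) ≤ (C + 1) * (ε / (C + 1)) := by
        gcongr
        · exact le_self_add
        · exact min_le_right _ _
      refine this.trans ?_
      rw [mul_div_cancel₀]
      positivity
    have hmem : lc + δ ∈ Lam d := by
      refine ⟨s, hs, ?_⟩
      refine lt_of_le_of_lt ?_ hε1
      calc phi d (lc + δ) s ≤ phi d lc s + C * ((lc + δ - lc : ℝ≥0) : ℝ≥0∞) :=
            hC _ _ s hs (by rw [Real.coe_toNNReal _ hs]) le_self_add (by gcongr)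
        _ ≤ phi d lc s + ε := by
            gcongr
            rw [← ENNReal.coe_mul, add_tsub_cancel_left]
            exact_mod_cast hCδ
    have := le_csSup hbd hmem
    have h2 : lc < lc + δ := lt_add_of_pos_right _ hδ
    exact absurd this (not_le.2 h2)

theorem thmax (hB : BootX) (hV : VstStatement) (hP : PtwStatement) (hT : TauFStatement) :
    ThmAX := by
  intro d hd2
  obtain ⟨lam, hlam, hHyp, h3⟩ := hB d hd2
  have hTF : TauFacts d := hT d (by omega)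
  set k := Nat.clog 2 (12800 * d) with hk
  have hGam : (Gam d : ℝ≥0∞) ≤ 2 ^ k := gam_le d
  have hkd : 1000 * (1 + k) ^ 2 ≤ d := clog_sq d hd2
  have hκd : 1 + k ≤ d := by nlinarith
  have hA1 : (1 : ℝ≥0) ≤ 2 ^ (2 * d + 12 * k) := one_le_pow₀ (by norm_num)
  refine ⟨lam, 1 + k, 2 ^ (2 * d + 12 * k), hkd, by omega, hlam, hA1, ?_, ?_, h3⟩
  · intro V x y R hDom hR
    obtain ⟨n, hn1, hn2⟩ := exists_nat_pow_near hR (one_lt_two)
    have h1 : wt lam V (fun b => ind (b ∈ bal y R)) x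
        ≤ wt lam V (fun b => ind (b ∈ bal y (2 ^ (n + 1)))) x := by
      apply wt_mono
      intro b
      apply ind_mono
      intro hb
      exact Metric.closedBall_subset_closedBall hn2.le hb
    have h2 := hV d (by omega) hTF lam hHyp (n + 1) V x y hDom
    have h4 : ((2 : ℝ≥0∞) ^ n) ≤ ENNReal.ofReal R := by
      rw [← ofReal_pow2]
      exact ENNReal.ofReal_le_ofReal hn1
    calc wt lam V (fun b => ind (b ∈ bal y R)) x
        ≤ (Gam d : ℝ≥0∞) ^ (n + 1 + 9) := h1.trans h2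
      _ ≤ (2 ^ k) ^ (n + 1 + 9) := by gcongr
      _ = 2 ^ (10 * k) * (2 ^ n) ^ k := by rw [← pow_mul, ← pow_mul, ← pow_add]; congr 1; ring
      _ ≤ 2 ^ (2 * d + 12 * k) * ENNReal.ofReal R ^ k := by
          gcongr
          · norm_num
          · omega
      _ = 2 ^ (2 * d + 12 * k) * ENNReal.ofReal (R ^ k) := by
          rw [ENNReal.ofReal_pow (by linarith)]
      _ ≤ 2 ^ (2 * d + 12 * k) * ENNReal.ofReal (R ^ (1 + k)) := by
          gcongr
          omega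
      _ = ((2 ^ (2 * d + 12 * k) : ℝ≥0) : ℝ≥0∞) * ENNReal.ofReal (R ^ (1 + k)) := by
          push_cast; rfl
  · intro V x y hDom hxy
    obtain ⟨n, hn1, hn2⟩ := exists_nat_pow_near hxy (one_lt_two)
    have h1 : ENNReal.ofReal (dist x y ^ (d - (1 + k))) ≤ (2 ^ (n + 1)) ^ (d - (1 + k)) := by
      rw [← ofReal_pow2, ← ENNReal.ofReal_pow (by positivity)]
      apply ENNReal.ofReal_le_ofReal
      gcongr
    have hkey : tau lam V x y * 2 ^ (n * (d - (1 + k))) ≤ 2 ^ d * 2 ^ (12 * k) := by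
      rcases Nat.eq_zero_or_pos n with h0 | hpos
      · subst h0
        rw [zero_mul, pow_zero, mul_one]
        refine (hTF.le_one lam V x y hDom).trans ?_
        rw [← pow_add]
        exact one_le_pow₀ (by norm_num)
      · have h := hP d (by omega) hTF lam hHyp n V x y hDom hpos hn1
        have h5 : (2 : ℝ≥0∞) ^ (n * (d - 1)) = 2 ^ (n * (d - (1 + k))) * 2 ^ (n * k) := by
          rw [← pow_add, ← mul_add]
          congr 2
          omega
        have h6 : tau lam V x y * 2 ^ (n * (d - (1 + k))) * 2 ^ (n * k)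
            ≤ 2 ^ d * 2 ^ (12 * k) * 2 ^ (n * k) := by
          calc tau lam V x y * 2 ^ (n * (d - (1 + k))) * 2 ^ (n * k)
              = tau lam V x y * 2 ^ (n * (d - 1)) := by rw [h5, mul_assoc]
            _ ≤ 2 ^ d * (Gam d : ℝ≥0∞) ^ (n + 12) := h
            _ ≤ 2 ^ d * (2 ^ k) ^ (n + 12) := by gcongr
            _ = 2 ^ d * 2 ^ (12 * k) * 2 ^ (n * k) := by
                rw [← pow_mul, mul_assoc, ← pow_add]; congr 2; ring
        have hne : (2 : ℝ≥0∞) ^ (n * k) ≠ 0 := by positivity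
        have hnt : (2 : ℝ≥0∞) ^ (n * k) ≠ ∞ := ENNReal.pow_ne_top (by norm_num)
        have h7 := ENNReal.div_le_div_right h6 (2 ^ (n * k))
        rwa [ENNReal.mul_div_cancel_right hne hnt, ENNReal.mul_div_cancel_right hne hnt] at h7
    calc tau lam V x y * ENNReal.ofReal (dist x y ^ (d - (1 + k)))
        ≤ tau lam V x y * (2 ^ (n + 1)) ^ (d - (1 + k)) := by gcongr
      _ = tau lam V x y * 2 ^ (n * (d - (1 + k))) * 2 ^ (d - (1 + k)) := by
          rw [mul_assoc, ← pow_add, ← pow_mul]; congr 2; ring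
      _ ≤ 2 ^ d * 2 ^ (12 * k) * 2 ^ (d - (1 + k)) := by gcongr
      _ = 2 ^ (d + 12 * k + (d - (1 + k))) := by rw [← pow_add, ← pow_add]
      _ ≤ 2 ^ (2 * d + 12 * k) := by
          apply pow_le_pow_right₀ (by norm_num)
          omega
      _ = ((2 ^ (2 * d + 12 * k) : ℝ≥0) : ℝ≥0∞) := by push_cast; rfl

theorem thmAX : ThmAX :=
  have h1 : FarX := farx All.aTInf All.aVst All.aPtw All.aSlb
  have h2 : NearX := nearx All.aTInf h1 All.aLens All.aSlb
  have h3 : ErrBX := errbx h1 h2 All.aDep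
  have h4 : BootX := bootx All.aSubc h3 All.aRev All.aTauF All.aSlb
  thmax h4 All.aVst All.aPtw All.aTauF

end Pool.Agent.Lib.MP_5349a4_pr.Hedge2.Expl
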