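import Pool.Agent.Lib.MP_5349a4_pr.M.Hedge2.Law
import Pool.Agent.Lib.MP_5349a4_pr.M.H59.BadM

/-!
# Transfer: a Poisson process on one sample space gives the almost sure statement on all
-/

set_option autoImplicit false
open MeasureTheory Set ProbabilityTheory
open scoped ENNReal NNReal

namespace Pool.Agent.Lib.MP_5349a4_pr.Hedge2

variable {d : ℕ}

/-- `m` points in different components, for all `m` -/
def Many (S : Set (Eu d)) : Prop :=
  ∀ m : ℕ, ∃ f : Fin m → Eu d, (∀ i, f i ∈ S) ∧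
    ∀ i j, i ≠ j → ¬ Relation.ReflTransGen (edge S) (f i) (f j)

section
variable {Ω : Type} [MeasurableSpace Ω] (X : ℕ → Ω → Eu d) (B : ℕ → Set Ω)

/-- the point number `m` is reached from the point number `n` by a walk with `k` edges -/
def walk (S : Ω → Set (Eu d)) (n : ℕ) : ℕ → ℕ → Set Ω
  | 0, m => {ω | X n ω = X m ω}
  | k + 1, m => ⋃ l, walk S n k l ∩ {ω | (ω ∈ B l ∧ ω ∈ B m) ∧ edge (S ω) (X l ω) (X m ω)}

variable {X B} {S : Ω → Set (Eu d)}

theorem meas_walk (hS : ∀ ω, S ω = {x | ∃ n, ω ∈ B n ∧ X n ω = x}) (hX : ∀ n, Measurable (X n))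
    (hB : ∀ n, MeasurableSet (B n)) (n k m : ℕ) : MeasurableSet (walk X B S n k m) := by
  induction k generalizing m with
  | zero => exact measurableSet_eq_fun (hX n) (hX m)
  | succ k ih =>
    exact MeasurableSet.iUnion fun l => (ih l).inter (H59.measurableSet_edge hS hX hB l m)

theorem mem_walk (hS : ∀ ω, S ω = {x | ∃ n, ω ∈ B n ∧ X n ω = x}) (n : ℕ) (ω : Ω)
    (hn : ω ∈ B n) (p : Eu d) : Relation.ReflTransGen (edge (S ω)) (X n ω) p ↔
      ∃ k m, ω ∈ B m ∧ X m ω = p ∧ ω ∈ walk X B S n k m := by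
  constructor
  · intro h
    induction h with
    | refl => exact ⟨0, n, hn, rfl, rfl⟩
    | tail _ h2 ih =>
      obtain ⟨k, m, hm, rfl, hr⟩ := ih
      have h4 := h2.2.1
      rw [hS] at h4
      obtain ⟨m', hm', rfl⟩ := h4
      exact ⟨k + 1, m', hm', rfl, mem_iUnion.2 ⟨m, hr, ⟨hm, hm'⟩, h2⟩⟩
  · rintro ⟨k, m, hm, rfl, hr⟩
    have key : ∀ k m, ω ∈ walk X B S n k m →
        Relation.ReflTransGen (edge (S ω)) (X n ω) (X m ω) := by
      intro k
      induction k with
      | zero =>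
        intro m h
        have h' : X n ω = X m ω := h
        rw [← h']
      | succ k ih =>
        intro m h
        obtain ⟨l, h1, h2⟩ := mem_iUnion.1 h
        exact Relation.ReflTransGen.tail (ih l h1) h2.2
    exact key k m hr

/-- `Many` is a measurable event -/
theorem meas_many (hS : ∀ ω, S ω = {x | ∃ n, ω ∈ B n ∧ X n ω = x}) (hX : ∀ n, Measurable (X n))
    (hB : ∀ n, MeasurableSet (B n)) : MeasurableSet {ω | Many (S ω)} := by
  have e : {ω | Many (S ω)} = ⋂ m : ℕ, ⋃ f : Fin m → ℕ, (⋂ i, B (f i)) ∩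
      ⋂ i, ⋂ j, ⋂ _ : i ≠ j, (⋃ k, ⋃ l, (B l ∩ {ω | X l ω = X (f j) ω}) ∩
        walk X B S (f i) k l)ᶜ := by
    ext ω
    simp only [Many, mem_setOf_eq, mem_iInter, mem_iUnion, mem_inter_iff, mem_compl_iff]
    refine forall_congr' fun m => ?_
    constructor
    · rintro ⟨f, h1, h2⟩
      have h3 : ∀ i, ∃ n, ω ∈ B n ∧ X n ω = f i := by
        intro i
        have := h1 i
        rw [hS] at this
        exact this
      choose g hg1 hg2 using h3
      refine ⟨g, hg1, fun i j hij hcon => h2 i j hij ?_⟩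
      obtain ⟨k, l, ⟨h4, h5⟩, h6⟩ := hcon
      rw [← hg2 i, ← hg2 j]
      exact (mem_walk hS (g i) ω (hg1 i) _).2 ⟨k, l, h4, h5, h6⟩
    · rintro ⟨g, h1, h2⟩
      refine ⟨fun i => X (g i) ω, fun i => ?_, fun i j hij hcon => h2 i j hij ?_⟩
      · rw [hS]
        exact ⟨g i, h1 i, rfl⟩
      · obtain ⟨k, l, h4, h5, h6⟩ := (mem_walk hS (g i) ω (h1 i) _).1 hcon
        exact ⟨k, l, ⟨h4, h5⟩, h6⟩
  rw [e]
  refine MeasurableSet.iInter fun m => MeasurableSet.iUnion fun f =>
    (MeasurableSet.iInter fun i => hB (f i)).inter (MeasurableSet.iInter fun i =>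
      MeasurableSet.iInter fun j => MeasurableSet.iInter fun _ => MeasurableSet.compl ?_)
  exact MeasurableSet.iUnion fun k => MeasurableSet.iUnion fun l =>
    ((hB l).inter (measurableSet_eq_fun (hX l) (hX (f j)))).inter (meas_walk hS hX hB (f i) k l)

end

/-- `Many` is a measurable event of the counts -/
theorem meas_many_SC (d : ℕ) : MeasurableSet {c : Ix d → ℕ | Many (SC c)} := by
  obtain ⟨e, he⟩ := exists_surjective_nat (Ix d)
  refine meas_many (X := fun n c => XX (e n) c) (B := fun n => BB (e n)) ?_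
    (fun n => meas_XX (e n)) (fun n => meas_BB (e n))
  intro c
  ext x
  simp only [SC, mem_setOf_eq]
  constructor
  · rintro ⟨i, h1, h2⟩
    obtain ⟨n, rfl⟩ := he i
    exact ⟨n, h1, h2⟩
  · rintro ⟨n, h1, h2⟩
    exact ⟨e n, h1, h2⟩

/-- transfer of the almost sure statement from one Poisson process to another -/
theorem transfer {Ω Ω' : Type*} [MeasurableSpace Ω] [MeasurableSpace Ω'] {P : Measure Ω}
    {P' : Measure Ω'} [IsProbabilityMeasure P] [IsProbabilityMeasure P'] {S : Ω → Set (Eu d)}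
    {S' : Ω' → Set (Eu d)} (h : IsPoi d P S) (h' : IsPoi d P' S') (hM : ∀ᵐ ω ∂P, Many (S ω)) :
    ∀ᵐ ω ∂P', Many (S' ω) := by
  have h1 : ∀ᵐ c ∂(P.map fun ω => cnts (S ω)), Many (SC c) := by
    rw [ae_map_iff h.aem_cnts (meas_many_SC d)]
    filter_upwards [hM, h.lf] with ω h2 h3
    rwa [SC_cnts h3]
  rw [law_eq h h', ae_map_iff h'.aem_cnts (meas_many_SC d)] at h1
  filter_upwards [h1, h'.lf] with ω h2 h3
  rwa [SC_cnts h3] at h2

end Pool.Agent.Lib.MP_5349a4_pr.Hedge2
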