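import Pool.Agent.Lib.MP_5349a4_pr.M.H98.All
import Pool.Agent.Lib.MP_5349a4_pr.M.Hedge2.Tra
import Pool.Agent.Lib.MP_5349a4_pr.M.Hedge2.Dj
import Pool.Agent.Lib.MP_5349a4_pr.M.Hedge2.Expl

/-!
# Infinitely many components, for every Poisson process in high dimensions
-/

set_option autoImplicit false
open MeasureTheory Set ProbabilityTheory
open scoped ENNReal NNReal Pointwise

namespace Pool.Agent.Lib.MP_5349a4_pr.Hedge2

variable {d : ℕ}

theorem tree_scale (hSc : InvScStatement) (S : Set (Eu d)) {c : ℝ} (hc : 0 < c) (x : Eu d) :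
    tree ((fun z => c • z) '' S) (c • x) = (fun z => c • z) '' tree S x := by
  unfold tree
  rw [image_iUnion]
  exact iUnion_congr fun k => ((hSc d S x k).2.2.1 c hc).1

theorem dj_scale (hSc : InvScStatement) (S : Set (Eu d)) {c : ℝ} (hc : 0 < c) {m : ℕ}
    (h : DJ m ((fun z => c • z) '' S)) : DJ m S := by
  obtain ⟨f, hf, hdis⟩ := h
  choose g hg hg' using hf
  refine ⟨g, hg, fun a b hab => ?_⟩
  have h1 := hdis a b hab
  have e1 : ∀ a, tree ((fun z => c • z) '' S) (f a) = (fun z => c • z) '' tree S (g a) := by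
    intro a
    rw [← hg' a]
    exact tree_scale hSc S hc (g a)
  rw [e1, e1, Set.disjoint_image_iff (smul_right_injective (Eu d) hc.ne')] at h1
  exact h1

theorem tree_of_path (hF : ForeStatement) {S : Set (Eu d)} (hLF : LF S) (hI : S.Infinite)
    (hG : Gen S) (hbad : ∀ x y : Eu d, ¬ bad S x y) {x y : Eu d}
    (h : Relation.ReflTransGen (edge S) x y) : (tree S x \ tree S y).Finite := by
  induction h with
  | refl => simp
  | @tail b c _ hbc ih =>
    have h2 := ((hF d S hLF hI hG).2 _ _ hbc (hbad _ _)).1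
    refine (ih.union h2).subset ?_
    intro p hp
    by_cases hpi : p ∈ tree S b
    · exact Or.inr ⟨hpi, hp.2⟩
    · exact Or.inl ⟨hp.1, hpi⟩

theorem many_of_dj (hF : ForeStatement) {S : Set (Eu d)} (hLF : LF S) (hI : S.Infinite)
    (hG : Gen S) (hbad : ∀ x y : Eu d, ¬ bad S x y) (h : ∀ m, DJ m S) : Many S := by
  intro m
  obtain ⟨f, hf, hdis⟩ := h m
  refine ⟨f, hf, fun i j hij hcon => ?_⟩
  have h1 := tree_of_path hF hLF hI hG hbad hcon
  rw [(hdis i j hij).sdiff_eq_left] at h1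
  exact (hF d S hLF hI hG).1 (f i) (hf i) h1

/-- infinitely many components for the constructed process -/
theorem many_proc {lam : ℝ≥0} {κ : ℕ} {A : ℝ≥0} (hC : Crit d lam κ A) {Ω : Type}
    [MeasurableSpace Ω] {Pr : Measure Ω} {S : Ω → Set (Eu d)} (hP : IsProc d Pr S) :
    ∀ᵐ ω ∂Pr, Many (S ω) := by
  have hd : 1 ≤ d := by
    have h1 := hC.hd
    have h2 := hC.hκ
    have h3 : 1 ≤ κ ^ 2 := Nat.one_le_pow _ _ h2
    omega
  have hlam := hC.hlam
  have hd0 : (d : ℝ) ≠ 0 := by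
    have : (1 : ℝ) ≤ d := by exact_mod_cast hd
    linarith
  obtain ⟨a, ha, had⟩ : ∃ a : ℝ, 0 < a ∧ a ^ d = lam := by
    refine ⟨(lam : ℝ) ^ (1 / (d : ℝ)), Real.rpow_pos_of_pos (by exact_mod_cast hlam) _, ?_⟩
    rw [← Real.rpow_natCast, ← Real.rpow_mul (NNReal.coe_nonneg lam), one_div,
      inv_mul_cancel₀ hd0, Real.rpow_one]
  obtain ⟨th, p₀, C', hth, hp₀, hC', hp, hb⟩ := bpb All.aMRestr All.aMOps All.aProb All.aResamp
    All.aPos All.aGrow All.aRotM All.aMunV All.aPairE All.aInvD All.aInvM d lam κ A hC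
  have hT := LawP.of_proc (lam := lam) All.aImg All.aMOps hP ha had
  have hdj : ∀ᵐ ω ∂Pr, ∀ m, DJ m ((fun z => a⁻¹ • z) '' S ω) := by
    rw [ae_all_iff]
    intro m
    exact hT.dj All.aRes All.aProb All.aMRestr All.aImg All.aInvSc All.aInvD All.aInvM
      All.aMSum All.aMecke All.aMOps hd hlam hth hp₀ hC' hp hb m
  filter_upwards [hdj, All.aPGen d Ω Pr S hd hP, All.aBadN d Ω Pr S hd hP] with ω h1 h2 h3
  exact many_of_dj All.aFore (hP.lf ω) h2.1 h2.2 h3 fun m =>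
    dj_scale All.aInvSc (S ω) (inv_pos.mpr ha) (h1 m)

theorem isPoi_of_proc (hd : 1 ≤ d) {Ω : Type} [MeasurableSpace Ω] {Pr : Measure Ω}
    {S : Ω → Set (Eu d)} (hP : IsProc d Pr S) : IsPoi d Pr S := by
  obtain ⟨h1, h2⟩ := All.aFroz d Ω Pr S hd hP
  exact ⟨Filter.Eventually.of_forall hP.lf, h1, h2⟩

/-- there are unit-intensity Poisson processes -/
theorem exists_poi (hd : 1 ≤ d) : ∃ (Ω : Type) (mΩ : MeasurableSpace Ω) (Pr : Measure Ω)
    (S : Ω → Set (Eu d)), IsProbabilityMeasure Pr ∧ IsPoi d Pr S := by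
  obtain ⟨Ω, mΩ, Pr, S, hP⟩ := All.aProc d hd
  exact ⟨Ω, mΩ, Pr, S, hP.prob, isPoi_of_proc hd hP⟩

/-- Infinitely many components for every Poisson process in dimensions from `1225000` on. -/
theorem main (d : ℕ) (hd : 1225000 ≤ d) (Ω : Type*) [MeasurableSpace Ω]
    (P : Measure Ω) [IsProbabilityMeasure P] (S : Ω → Set (Eu d)) (hS : IsPoi d P S) :
    ∀ᵐ ω ∂P, Many (S ω) := by
  have hd1 : 1 ≤ d := by omega
  obtain ⟨lam, κ, A, hC⟩ := Expl.thmAX d hd
  obtain ⟨Ω', mΩ', Pr, S', hP⟩ := All.aProc d hd1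
  have hpr := hP.prob
  exact transfer (isPoi_of_proc hd1 hP) hS (many_proc hC hP)

end Pool.Agent.Lib.MP_5349a4_pr.Hedge2
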