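import Pool.Agent.Lib.MP_5349a4_pr.M.Hedge2.Cub

/-!
# The law of the counts is the same for all Poisson processes
-/

set_option autoImplicit false
open MeasureTheory Set ProbabilityTheory
open scoped ENNReal NNReal

namespace Pool.Agent.Lib.MP_5349a4_pr.Hedge2

variable {d : ℕ}

/-- unit-intensity homogeneous Poisson process on `ℝ^d` -/
structure IsPoi (d : ℕ) {Ω : Type*} [MeasurableSpace Ω] (P : Measure Ω)
    (S : Ω → Set (Eu d)) : Prop where
  lf : ∀ᵐ ω ∂P, LF (S ω)
  cnt : ∀ A : Set (Eu d), MeasurableSet A → Bornology.IsBounded A →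
    P.map (fun ω => (S ω ∩ A).ncard) = (poissonPMF (volume A).toNNReal).toMeasure
  ind : ∀ (k : ℕ) (A : Fin k → Set (Eu d)), (∀ i, MeasurableSet (A i)) →
    (∀ i, Bornology.IsBounded (A i)) → Pairwise (fun i j => Disjoint (A i) (A j)) →
    iIndepFun (fun i ω => (S ω ∩ A i).ncard) P

section
variable {Ω : Type*} [MeasurableSpace Ω] {P : Measure Ω} {S : Ω → Set (Eu d)}

theorem IsPoi.aem (h : IsPoi d P S) {A : Set (Eu d)} (hA : MeasurableSet A)
    (hb : Bornology.IsBounded A) : AEMeasurable (fun ω => (S ω ∩ A).ncard) P := by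
  by_contra hcon
  have h1 := h.cnt A hA hb
  rw [Measure.map_of_not_aemeasurable hcon] at h1
  have h2 : (0 : Measure ℕ) univ = 1 := by
    rw [h1]
    exact measure_univ
  simp at h2

/-- atoms of a finite family of sets -/
def atom {J : Type} (A : J → Set (Eu d)) (B : Finset J) : Set (Eu d) :=
  {x | (∃ j, x ∈ A j) ∧ ∀ j, x ∈ A j ↔ j ∈ B}

variable {J : Type} [Fintype J]

theorem meas_atom {A : J → Set (Eu d)} (hA : ∀ j, MeasurableSet (A j)) (B : Finset J) :
    MeasurableSet (atom A B) := by
  classical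
  have e : atom A B = (⋃ j, A j) ∩ ⋂ j, (if j ∈ B then A j else (A j)ᶜ) := by
    ext x
    simp only [atom, mem_setOf_eq, mem_inter_iff, mem_iUnion, mem_iInter]
    refine and_congr Iff.rfl (forall_congr' fun j => ?_)
    by_cases h : j ∈ B
    · simp [h]
    · simp [h]
  rw [e]
  refine (MeasurableSet.iUnion hA).inter (MeasurableSet.iInter fun j => ?_)
  split_ifs
  · exact hA j
  · exact (hA j).compl

theorem bdd_atom {A : J → Set (Eu d)} (hA : ∀ j, Bornology.IsBounded (A j)) (B : Finset J) :
    Bornology.IsBounded (atom A B) := by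
  refine (Bornology.isBounded_iUnion.2 hA).subset ?_
  rintro x ⟨⟨j, hj⟩, -⟩
  exact mem_iUnion.2 ⟨j, hj⟩

theorem disj_atom (A : J → Set (Eu d)) {B B' : Finset J} (h : B ≠ B') :
    Disjoint (atom A B) (atom A B') := by
  rw [Set.disjoint_left]
  rintro x ⟨-, h1⟩ ⟨-, h2⟩
  apply h
  ext j
  rw [← h1, ← h2]

open Classical in
theorem ncard_atom {A : J → Set (Eu d)} (hA : ∀ j, Bornology.IsBounded (A j)) {Q : Set (Eu d)}
    (hQ : LF Q) (j : J) :
    (Q ∩ A j).ncard = ∑ B : Finset J, if j ∈ B then (Q ∩ atom A B).ncard else 0 := by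
  have hfin : (Q ∩ A j).Finite := hQ _ (hA j)
  set T : Finset (Eu d) := hfin.toFinset with hT
  have h1 : (Q ∩ A j).ncard = T.card := Set.ncard_eq_toFinset_card _ hfin
  have h2 : T.card = ∑ B ∈ (Finset.univ : Finset (Finset J)),
      (T.filter fun x => (Finset.univ.filter fun i => x ∈ A i) = B).card :=
    Finset.card_eq_sum_card_fiberwise (f := fun x => Finset.univ.filter fun i => x ∈ A i)
      (t := Finset.univ) (fun x _ => Finset.mem_coe.2 (Finset.mem_univ _))
  rw [h1, h2]
  refine Finset.sum_congr rfl fun B _ => ?_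
  split_ifs with hj
  · rw [← Set.ncard_coe_finset]
    congr 1
    ext x
    simp only [hT, Finset.coe_filter, Set.Finite.mem_toFinset, mem_setOf_eq, mem_inter_iff, atom]
    constructor
    · rintro ⟨⟨h3, h4⟩, h5⟩
      refine ⟨h3, ⟨j, h4⟩, fun i => ?_⟩
      rw [← h5]
      simp
    · rintro ⟨h3, -, h5⟩
      refine ⟨⟨h3, (h5 j).2 hj⟩, ?_⟩
      ext i
      rw [← h5]
      simp
  · rw [Finset.card_eq_zero, Finset.filter_eq_empty_iff]
    intro x hx hcon
    apply hj
    rw [← hcon]
    simp only [hT, Set.Finite.mem_toFinset, mem_inter_iff] at hx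
    simp [hx.2]

open Classical in
/-- the joint law of finitely many counts -/
theorem IsPoi.law_fin (h : IsPoi d P S) {A : J → Set (Eu d)} (hA : ∀ j, MeasurableSet (A j))
    (hb : ∀ j, Bornology.IsBounded (A j)) :
    P.map (fun ω j => (S ω ∩ A j).ncard) =
      (Measure.pi fun b : Fin (Fintype.card (Finset J)) =>
        (poissonPMF (volume (atom A ((Fintype.equivFin (Finset J)).symm b))).toNNReal).toMeasure).map
      (fun (v : Fin (Fintype.card (Finset J)) → ℕ) (j : J) =>
        ∑ B : Finset J, if j ∈ B then v (Fintype.equivFin (Finset J) B) else 0) := by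
  set K := Fintype.card (Finset J) with hK
  set e := Fintype.equivFin (Finset J) with he
  have hat : ∀ b : Fin K, AEMeasurable (fun ω => (S ω ∩ atom A (e.symm b)).ncard) P := fun b =>
    h.aem (meas_atom hA _) (bdd_atom hb _)
  have hind := h.ind K (fun b => atom A (e.symm b)) (fun b => meas_atom hA _)
    (fun b => bdd_atom hb _) (fun b b' hne => disj_atom A fun e' => hne (e.symm.injective e'))
  have hpi : P.map (fun ω (b : Fin K) => (S ω ∩ atom A (e.symm b)).ncard) =
      Measure.pi fun b : Fin K =>
        (poissonPMF (volume (atom A (e.symm b))).toNNReal).toMeasure := by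
    have := hind.isProbabilityMeasure
    rw [iIndepFun_iff_map_fun_eq_pi_map hat] at hind
    rw [hind]
    congr 1
    funext b
    exact h.cnt _ (meas_atom hA _) (bdd_atom hb _)
  have hF : Measurable (fun (v : Fin K → ℕ) (j : J) =>
      ∑ B : Finset J, if j ∈ B then v (e B) else 0) := by
    refine measurable_pi_iff.2 fun j => ?_
    refine Finset.measurable_sum _ fun B _ => ?_
    split_ifs
    · exact measurable_pi_apply _
    · exact measurable_const
  have hall : AEMeasurable (fun ω (b : Fin K) => (S ω ∩ atom A (e.symm b)).ncard) P :=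
    aemeasurable_pi_lambda _ hat
  rw [← hpi, AEMeasurable.map_map_of_aemeasurable hF.aemeasurable hall]
  refine Measure.map_congr ?_
  filter_upwards [h.lf] with ω hω
  funext j
  rw [ncard_atom hb hω j]
  refine Finset.sum_congr rfl fun B _ => ?_
  simp only [Equiv.symm_apply_apply]

theorem IsPoi.aem_cnts (h : IsPoi d P S) : AEMeasurable (fun ω => cnts (S ω)) P :=
  aemeasurable_pi_lambda _ fun i => h.aem (meas_cube i) (bdd_cube i)

/-- the law of the counts is the same for all Poisson processes -/
theorem law_eq {Ω' : Type*} [MeasurableSpace Ω'] {P' : Measure Ω'} {S' : Ω' → Set (Eu d)}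
    (h : IsPoi d P S) (h' : IsPoi d P' S') [IsProbabilityMeasure P] [IsProbabilityMeasure P'] :
    P.map (fun ω => cnts (S ω)) = P'.map (fun ω => cnts (S' ω)) := by
  have hp : IsProbabilityMeasure (P.map fun ω => cnts (S ω)) :=
    Measure.isProbabilityMeasure_map h.aem_cnts
  have hp' : IsProbabilityMeasure (P'.map fun ω => cnts (S' ω)) :=
    Measure.isProbabilityMeasure_map h'.aem_cnts
  have key : ∀ I : Finset (Ix d), (P'.map fun ω => cnts (S' ω)).map I.restrict =
      (P.map fun ω => cnts (S ω)).map I.restrict := by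
    intro I
    rw [AEMeasurable.map_map_of_aemeasurable (Finset.measurable_restrict I).aemeasurable
        h'.aem_cnts,
      AEMeasurable.map_map_of_aemeasurable (Finset.measurable_restrict I).aemeasurable h.aem_cnts]
    have e1 : (I.restrict ∘ fun ω => cnts (S ω)) =
        fun ω (j : I) => (S ω ∩ cube (j : Ix d)).ncard := rfl
    have e2 : (I.restrict ∘ fun ω => cnts (S' ω)) =
        fun ω (j : I) => (S' ω ∩ cube (j : Ix d)).ncard := rfl
    rw [e1, e2, h.law_fin (A := fun j : I => cube (j : Ix d)) (fun j => meas_cube _)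
      (fun j => bdd_cube _), h'.law_fin (A := fun j : I => cube (j : Ix d)) (fun j => meas_cube _)
      (fun j => bdd_cube _)]
  refine IsProjectiveLimit.unique
    (P := fun I : Finset (Ix d) => (P.map fun ω => cnts (S ω)).map I.restrict) ?_ ?_
  · intro I
    rfl
  · intro I
    exact key I

end

end Pool.Agent.Lib.MP_5349a4_pr.Hedge2
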