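import Pool.Agent.Lib.MP_5349a4_pr.M.Hedge2.Cell

/-!
# A cell has a good point with positive probability; distant good points rarely meet
-/

set_option autoImplicit false
open MeasureTheory Set
open scoped ENNReal NNReal Pointwise

namespace Pool.Agent.Lib.MP_5349a4_pr.Hedge2

open H72

variable {d : ℕ}

section Pos

/-- number of good points near the origin -/
noncomputable def gs (th : ℕ → ℝ) (n : ℕ) (Q : Set (Eu d)) : ℝ≥0∞ :=
  ∑' x : Q, ind ((x : Eu d) ∈ bal 0 1 ∧ good th Q x n)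

theorem meas_gs1 (hM : InvMStatement) (th : ℕ → ℝ) (n : ℕ) :
    Measurable fun q : Eu d × Cfg (Eu d) => ind (q.1 ∈ bal 0 1 ∧ good th (pt q.2) q.1 n) := by
  refine measurable_ind (MeasurableSet.inter ?_ ((hM d n).2.2.2.1 th))
  exact measurable_fst (Metric.isClosed_closedBall.measurableSet)

theorem cm_gs (hM : InvMStatement) (hS : MSumStatement) (th : ℕ → ℝ) (n : ℕ) :
    CM (gs th n : Set (Eu d) → ℝ≥0∞) := by
  have h2 := hS.1 Unit (Eu d) (fun _ x Q => ind (x ∈ bal 0 1 ∧ good th Q x n))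
    ((meas_gs1 hM th n).comp (show Measurable fun q : Unit × Eu d × Cfg (Eu d) =>
      (q.2.1, q.2.2) by fun_prop))
  exact h2.comp (show Measurable fun ω : Cfg (Eu d) => ((), ω) by fun_prop)

theorem good_insert (hSc : InvScStatement) (th : ℕ → ℝ) (P : Set (Eu d)) (o : Eu d) (n : ℕ) :
    good th (insert o P) o n ↔ good th P o n := by
  unfold good
  refine forall₂_congr fun j _ => ?_
  rw [(inv_insert hSc P o j).2]

theorem gs_int (hMe : MeckeStatement) (hM : InvMStatement) (hSc : InvScStatement)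
    (hd : 1 ≤ d) (lam : ℝ≥0) (th : ℕ → ℝ) (n : ℕ) (L : ℝ) :
    ∫⁻ ω, gs th n (pt ω) ∂PL (leb lam (bal (0 : Eu d) L)) =
      ∫⁻ x, ind (x ∈ bal 0 1) * PL (leb lam (bal (0 : Eu d) L)) {ω | good th (pt ω) x n}
        ∂leb lam (bal (0 : Eu d) L) := by
  have hfin : IsFiniteMeasure (leb lam (bal (0 : Eu d) L)) := finite_leb lam (dom_bal 0 L).2
  have hna : NullSingletonClass (leb lam (bal (0 : Eu d) L)) := noAtoms_leb hd lam _
  have h1 := (hMe (Eu d) (leb lam (bal (0 : Eu d) L))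
    (fun x Q => ind (x ∈ bal 0 1 ∧ good th Q x n)) (meas_gs1 hM th n)).1
  unfold gs
  rw [h1]
  refine lintegral_congr fun x => ?_
  have hg : MeasurableSet {ω : Cfg (Eu d) | good th (pt ω) x n} :=
    (show Measurable fun ω : Cfg (Eu d) => (x, ω) by fun_prop) ((hM d n).2.2.2.1 th)
  rw [← lintegral_ind hg, ← lintegral_const_mul _ (measurable_ind hg)]
  refine lintegral_congr fun ω => ?_
  rw [← ind_and]
  exact ind_congr (and_congr Iff.rfl (good_insert hSc th (pt ω) x n))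

theorem leb_bal (lam : ℝ≥0) {v : Eu d} {L : ℝ} (h : bal v 1 ⊆ bal 0 L) :
    leb lam (bal (0 : Eu d) L) (bal v 1) = lam * volume (bal v 1) :=
  leb_inter lam (dom_bal v 1).1 h

variable {lam : ℝ≥0} {Ω : Type} [MeasurableSpace Ω] {Pr : Measure Ω} {T : Ω → Set (Eu d)}

theorem gs_eq (hD : InvDStatement) {th : ℕ → ℝ} (hth : ∀ j, th j ≤ 2) {Q : Set (Eu d)}
    (hQ : LF Q) (n : ℕ) : gs th n (Q ∩ bal 0 (2 * n + 3)) =
      ∑' x : Q, ind ((x : Eu d) ∈ bal 0 1 ∧ good th Q x n) := by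
  unfold gs
  rw [tsum_subtype (Q ∩ bal 0 (2 * n + 3))
      (fun x => ind (x ∈ bal 0 1 ∧ good th (Q ∩ bal 0 (2 * n + 3)) x n)),
    tsum_subtype Q (fun x => ind (x ∈ bal 0 1 ∧ good th Q x n))]
  refine tsum_congr fun x => ?_
  by_cases hx : x ∈ Q
  · rw [indicator_of_mem hx]
    by_cases hb : x ∈ bal (0 : Eu d) 1
    · have hm : x ∈ Q ∩ bal 0 (2 * n + 3) := ⟨hx, self_mem n hb⟩
      rw [indicator_of_mem hm]
      refine ind_congr (and_congr Iff.rfl ⟨fun h => ?_, fun h => ?_⟩)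
      · exact (good_loc hD hth (lf_inter hQ _) hQ (cap Q (ball_sub hb n)) h).1
      · exact (good_loc hD hth hQ (lf_inter hQ _) (cap Q (ball_sub hb n)).symm h).1
    · rw [ind_not (fun h => hb h.1)]
      by_cases hm : x ∈ Q ∩ bal 0 (2 * n + 3)
      · rw [indicator_of_mem hm, ind_not (fun h => hb h.1)]
      · rw [indicator_of_notMem hm]
  · rw [indicator_of_notMem hx, indicator_of_notMem fun h => hx h.1]

/-- the probabilities `qq` are bounded below -/
theorem LawP.qq_pos (h : LawP d lam Pr T) (hI : ImgStatement) (hSc : InvScStatement)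
    (hD : InvDStatement) (hM : InvMStatement) (hS : MSumStatement) (hMe : MeckeStatement)
    (hPr : ProbStatement) (hd : 1 ≤ d) (hlam : 0 < lam) {th : ℕ → ℝ}
    (hth : ∀ j, th j ≤ 2) {p₀ : ℝ≥0} (hp₀ : 0 < p₀)
    (hp : ∀ (o : Eu d) (n : ℕ) (L : ℝ), 2 * n + 2 + ‖o‖ ≤ L →
        (p₀ : ℝ≥0∞) ≤ PL (leb lam (bal (0 : Eu d) L)) {ω | good th (pt ω) o n}) :
    Pr {ω | ∀ n, gam th n 0 (T ω)} ≠ 0 := by
  have hprob := h.prob
  obtain ⟨F, hF⟩ : ∃ F : ℕ → Ω → ℝ≥0∞, ∀ n ω, F n ω = gs th n (T ω ∩ bal 0 (2 * n + 3)) :=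
    ⟨_, fun _ _ => rfl⟩
  have hFm : ∀ n, Measurable (F n) := by
    intro n
    have := (h.law _ (dom_bal 0 (2 * n + 3)) (gs th n) (cm_gs hM hS th n)).1
    have e : F n = fun ω => gs th n (T ω ∩ bal 0 (2 * n + 3)) := funext fun ω => hF n ω
    rw [e]
    exact this
  have hFi : ∀ n : ℕ, ∫⁻ ω, F n ω ∂Pr =
      ∫⁻ x, ind (x ∈ bal 0 1) * PL (leb lam (bal (0 : Eu d) (2 * n + 3)))
        {ω | good th (pt ω) x n} ∂leb lam (bal (0 : Eu d) (2 * n + 3)) := by
    intro n
    simp only [hF]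
    rw [(h.law _ (dom_bal 0 (2 * n + 3)) (gs th n) (cm_gs hM hS th n)).2]
    exact gs_int hMe hM hSc hd lam th n _
  have hFa : Antitone F := by
    intro n m hnm ω
    rw [hF, hF, gs_eq hD hth (h.lf ω), gs_eq hD hth (h.lf ω)]
    refine ENNReal.tsum_le_tsum fun x => ind_mono fun hx => ⟨hx.1, good_mono' hnm hx.2⟩
  have hsub : ∀ n : ℕ, bal (0 : Eu d) 1 ⊆ bal 0 (2 * n + 3) := by
    intro n
    apply Metric.closedBall_subset_closedBall
    have : (0 : ℝ) ≤ n := Nat.cast_nonneg n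
    linarith
  have hlow : ∀ n, (lam * volume (bal (0 : Eu d) 1)) * p₀ ≤ ∫⁻ ω, F n ω ∂Pr := by
    intro n
    rw [hFi]
    calc (lam * volume (bal (0 : Eu d) 1)) * p₀
        = ∫⁻ x, ind (x ∈ bal (0 : Eu d) 1) * p₀ ∂(leb lam (bal (0 : Eu d) (2 * n + 3))) := by
          rw [lintegral_mul_ind (dom_bal 0 1).1, lintegral_const, Measure.restrict_apply_univ,
            leb_bal lam (hsub n)]
          ring
      _ ≤ _ := by
          refine lintegral_mono fun x => ?_
          by_cases hx : x ∈ bal (0 : Eu d) 1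
          · rw [ind_of hx, one_mul, one_mul]
            apply hp
            have hx' : ‖x‖ ≤ 1 := by
              have : dist x 0 ≤ 1 := hx
              rwa [dist_zero_right] at this
            linarith
          · rw [ind_not hx, zero_mul]
            exact zero_le
  have hup : ∫⁻ ω, F 0 ω ∂Pr ≠ ∞ := by
    rw [hFi]
    have hfin : IsFiniteMeasure (leb lam (bal (0 : Eu d) (2 * (0 : ℕ) + 3))) :=
      finite_leb lam (dom_bal _ _).2
    have hpr := (hPr (Eu d) (leb lam (bal (0 : Eu d) (2 * (0 : ℕ) + 3)))).1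
    refine ne_top_of_le_ne_top (measure_ne_top (leb lam (bal (0 : Eu d) (2 * (0 : ℕ) + 3))) univ) ?_
    rw [← lintegral_one]
    refine lintegral_mono fun x => ?_
    calc ind (x ∈ bal (0 : Eu d) 1) * PL (leb lam (bal (0 : Eu d) (2 * (0 : ℕ) + 3)))
          {ω | good th (pt ω) x 0} ≤ 1 * 1 := mul_le_mul' (ind_le_one _) prob_le_one
      _ = 1 := one_mul 1
  intro h0
  have h1 : ∫⁻ ω, ⨅ n, F n ω ∂Pr = 0 := by
    rw [lintegral_eq_zero_iff (Measurable.iInf hFm)]
    refine measure_mono_null ?_ h0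
    intro ω hω n
    have hω' : (⨅ n, F n ω) ≠ 0 := hω
    by_contra hcon
    apply hω'
    refine le_antisymm ((iInf_le _ n).trans ?_) zero_le
    rw [hF, gs_eq hD hth (h.lf ω)]
    refine le_of_eq ?_
    rw [ENNReal.tsum_eq_zero]
    intro x
    apply ind_not
    rintro ⟨h2, h3⟩
    exact hcon ⟨x, x.2, h2, h3⟩
  rw [lintegral_iInf hFm hFa hup] at h1
  have h2 : (lam * volume (bal (0 : Eu d) 1)) * p₀ ≤ 0 := by
    rw [← h1]
    exact le_iInf hlow
  have h3 : ((lam : ℝ≥0∞) * volume (bal (0 : Eu d) 1)) * p₀ ≠ 0 := by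
    have b1 : volume (bal (0 : Eu d) 1) ≠ 0 :=
      (Metric.measure_closedBall_pos volume (0 : Eu d) one_pos).ne'
    have b3 : (p₀ : ℝ≥0∞) ≠ 0 := ENNReal.coe_ne_zero.mpr hp₀.ne'
    have b4 : (lam : ℝ≥0∞) ≠ 0 := ENNReal.coe_ne_zero.mpr hlam.ne'
    exact mul_ne_zero (mul_ne_zero b4 b1) b3
  exact h3 (le_antisymm h2 zero_le)

end Pos

section PairEv

noncomputable def hh (th : ℕ → ℝ) (n : ℕ) (v w x y : Eu d) (Q : Set (Eu d)) : ℝ≥0∞ :=
  ind (x ∈ bal v 1 ∧ y ∈ bal w 1 ∧ GB th n x y Q)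

noncomputable def hs (th : ℕ → ℝ) (n : ℕ) (v w : Eu d) (Q : Set (Eu d)) : ℝ≥0∞ :=
  ∑' x : Q, ∑' y : Q, hh th n v w x y Q

theorem meas_GB (hD : InvDStatement) (hM : InvMStatement) (hS : MSumStatement) (th : ℕ → ℝ)
    (n : ℕ) : MeasurableSet {q : (Eu d × Eu d) × Cfg (Eu d) | GB th n q.1.1 q.1.2 (pt q.2)} := by
  have hinv := (hM d n).1
  have hgood := (hM d n).2.2.2.1 th
  have m1 : MeasurableSet {q : (Eu d × Eu d) × Cfg (Eu d) | good th (pt q.2) q.1.1 n} :=
    (show Measurable fun q : (Eu d × Eu d) × Cfg (Eu d) => (q.1.1, q.2) by fun_prop) hgood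
  have m2 : MeasurableSet {q : (Eu d × Eu d) × Cfg (Eu d) | good th (pt q.2) q.1.2 n} :=
    (show Measurable fun q : (Eu d × Eu d) × Cfg (Eu d) => (q.1.2, q.2) by fun_prop) hgood
  have m3 : MeasurableSet {q : (Eu d × Eu d) × Cfg (Eu d) |
      q.1.1 ∈ inv (pt q.2) q.1.1 n ∧ q.1.1 ∈ inv (pt q.2) q.1.2 n} := by
    refine MeasurableSet.inter ?_ ?_
    · exact (show Measurable fun q : (Eu d × Eu d) × Cfg (Eu d) => (q.1.1, q.1.1, q.2) by
        fun_prop) hinv
    · exact (show Measurable fun q : (Eu d × Eu d) × Cfg (Eu d) => (q.1.2, q.1.1, q.2) by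
        fun_prop) hinv
  have m4 : MeasurableSet {q : (Eu d × Eu d) × Cfg (Eu d) | ∃ p ∈ pt q.2,
      p ∈ inv (pt q.2) q.1.1 n ∧ p ∈ inv (pt q.2) q.1.2 n} := by
    refine hS.2.1 (Eu d × Eu d) (Eu d)
      (fun t p Q => p ∈ inv Q t.1 n ∧ p ∈ inv Q t.2 n) ?_
    refine MeasurableSet.inter ?_ ?_
    · exact (show Measurable fun q : (Eu d × Eu d) × Eu d × Cfg (Eu d) =>
        (q.1.1, q.2.1, q.2.2) by fun_prop) hinv
    · exact (show Measurable fun q : (Eu d × Eu d) × Eu d × Cfg (Eu d) =>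
        (q.1.2, q.2.1, q.2.2) by fun_prop) hinv
  have e : {q : (Eu d × Eu d) × Cfg (Eu d) | GB th n q.1.1 q.1.2 (pt q.2)} =
      ({q | good th (pt q.2) q.1.1 n} ∩ {q | good th (pt q.2) q.1.2 n}) ∩
      ({q | q.1.1 ∈ inv (pt q.2) q.1.1 n ∧ q.1.1 ∈ inv (pt q.2) q.1.2 n} ∪
        {q | ∃ p ∈ pt q.2, p ∈ inv (pt q.2) q.1.1 n ∧ p ∈ inv (pt q.2) q.1.2 n}) := by
    ext q
    simp only [GB, mem_ofPred_eq, mem_inter_iff, mem_union]
    rw [Set.not_disjoint_iff]
    constructor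
    · rintro ⟨h1, h2, p, h4, h5⟩
      refine ⟨⟨h1, h2⟩, ?_⟩
      have h6 := ((hD d (pt q.2) (pt q.2) q.1.1 (lf_finite (pt_finite _))
        (lf_finite (pt_finite _))).1 n).2.1 h4
      rcases h6 with h6 | h6
      · rw [h6] at h4 h5
        exact Or.inl ⟨h4, h5⟩
      · exact Or.inr ⟨p, h6, h4, h5⟩
    · rintro ⟨⟨h1, h2⟩, h3⟩
      refine ⟨h1, h2, ?_⟩
      rcases h3 with ⟨h4, h5⟩ | ⟨p, -, h4, h5⟩
      · exact ⟨_, h4, h5⟩
      · exact ⟨p, h4, h5⟩
  rw [e]
  exact (m1.inter m2).inter (m3.union m4)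

theorem meas_hh (hD : InvDStatement) (hM : InvMStatement) (hS : MSumStatement) (th : ℕ → ℝ)
    (n : ℕ) (v w : Eu d) :
    Measurable fun q : Eu d × Eu d × Cfg (Eu d) => hh th n v w q.1 q.2.1 (pt q.2.2) := by
  unfold hh
  apply measurable_ind
  refine MeasurableSet.inter ?_ (MeasurableSet.inter ?_ ?_)
  · exact (show Measurable fun q : Eu d × Eu d × Cfg (Eu d) => q.1 by fun_prop)
      (Metric.isClosed_closedBall.measurableSet)
  · exact (show Measurable fun q : Eu d × Eu d × Cfg (Eu d) => q.2.1 by fun_prop)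
      (Metric.isClosed_closedBall.measurableSet)
  · exact (show Measurable fun q : Eu d × Eu d × Cfg (Eu d) => ((q.1, q.2.1), q.2.2) by fun_prop)
      (meas_GB hD hM hS th n)

theorem meas_hs (hD : InvDStatement) (hM : InvMStatement) (hS : MSumStatement) (th : ℕ → ℝ)
    (n : ℕ) (v w : Eu d) :
    Measurable (fun q : Eu d × Cfg (Eu d) =>
      ∑' y : (pt q.2 : Set (Eu d)), hh th n v w q.1 y (pt q.2)) ∧
    CM (hs th n v w : Set (Eu d) → ℝ≥0∞) := by
  have h1 : Measurable (fun q : Eu d × Cfg (Eu d) =>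
      ∑' y : (pt q.2 : Set (Eu d)), hh th n v w q.1 y (pt q.2)) :=
    hS.1 (Eu d) (Eu d) (fun x y Q => hh th n v w x y Q) (meas_hh hD hM hS th n v w)
  refine ⟨h1, ?_⟩
  have h2 := hS.1 Unit (Eu d) (fun _ x Q => ∑' y : Q, hh th n v w x y Q)
    (h1.comp (show Measurable fun q : Unit × Eu d × Cfg (Eu d) => (q.2.1, q.2.2) by fun_prop))
  exact h2.comp (show Measurable fun ω : Cfg (Eu d) => ((), ω) by fun_prop)

theorem GB_insert (hSc : InvScStatement) (th : ℕ → ℝ) (P : Set (Eu d)) (x y : Eu d) (n : ℕ)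
    (h : GB th n x y (insert x (insert y P))) : BadPair th x y n P := by
  obtain ⟨h1, h2, h3⟩ := h
  refine ⟨(good_insert hSc th _ x n).1 h1, ?_, ?_⟩
  · rw [Set.insert_comm] at h2
    exact (good_insert hSc th _ y n).1 h2
  · rw [(inv_insert hSc (insert y P) x n).1, Set.insert_comm, (inv_insert hSc (insert x P) y n).1]
      at h3
    exact h3

/-- upper bound for the mean number of bad pairs -/
theorem hs_int (hMe : MeckeStatement) (hD : InvDStatement) (hM : InvMStatement)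
    (hS : MSumStatement) (hSc : InvScStatement) (hO : MOpsStatement) (hd : 1 ≤ d) (lam : ℝ≥0)
    (th : ℕ → ℝ) (n : ℕ) (v w : Eu d) (L : ℝ) (c : ℝ≥0∞) (hv : bal v 1 ⊆ bal 0 L)
    (hw : bal w 1 ⊆ bal 0 L) (hvw : 2 < dist v w)
    (hc : ∀ x ∈ bal v 1, ∀ y ∈ bal w 1,
      ∫⁻ ω, ind (BadPair th x y n (pt ω)) ∂PL (leb lam (bal (0 : Eu d) L)) ≤ c) :
    ∫⁻ ω, hs th n v w (pt ω) ∂PL (leb lam (bal (0 : Eu d) L)) ≤
      (lam * volume (bal v 1)) * ((lam * volume (bal w 1)) * c) := by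
  have hfin : IsFiniteMeasure (leb lam (bal (0 : Eu d) L)) := finite_leb lam (dom_bal 0 L).2
  have hna : NullSingletonClass (leb lam (bal (0 : Eu d) L)) := noAtoms_leb hd lam _
  obtain ⟨cc, hcc, hcc2⟩ := hO.2.1 (Eu d)
  have h1 : ∫⁻ ω, hs th n v w (pt ω) ∂PL (leb lam (bal (0 : Eu d) L)) =
      ∫⁻ x, ∫⁻ ω, ∑' y : (insert x (pt ω) : Set (Eu d)), hh th n v w x y (insert x (pt ω))
        ∂PL (leb lam (bal (0 : Eu d) L)) ∂(leb lam (bal (0 : Eu d) L)) :=
    (hMe (Eu d) (leb lam (bal (0 : Eu d) L)) (fun x Q => ∑' y : Q, hh th n v w x y Q)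
      (meas_hs hD hM hS th n v w).1).1
  rw [h1]
  have hdiag : ∀ (x : Eu d) (Q : Set (Eu d)), hh th n v w x x Q = 0 := by
    intro x Q
    unfold hh
    apply ind_not
    rintro ⟨a1, a2, -⟩
    unfold bal at a1 a2
    rw [Metric.mem_closedBall] at a1 a2
    have := dist_triangle v x w
    rw [dist_comm v x] at this
    linarith
  have h3 : ∀ x : Eu d,
      ∫⁻ ω, ∑' y : (insert x (pt ω) : Set (Eu d)), hh th n v w x y (insert x (pt ω))
        ∂PL (leb lam (bal (0 : Eu d) L)) ≤ ind (x ∈ bal v 1) * ((lam * volume (bal w 1)) * c) := by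
    intro x
    by_cases hx : x ∈ bal v 1
    swap
    · rw [ind_not hx, zero_mul]
      refine le_of_eq ?_
      have : ∀ ω : Cfg (Eu d), ∑' y : (insert x (pt ω) : Set (Eu d)),
          hh th n v w x y (insert x (pt ω)) = 0 := by
        intro ω
        rw [ENNReal.tsum_eq_zero]
        intro y
        unfold hh
        exact ind_not fun h => hx h.1
      simp only [this, lintegral_zero]
    rw [ind_of hx, one_mul]
    have h4 := (hMe (Eu d) (leb lam (bal (0 : Eu d) L))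
      (fun y Q => hh th n v w x y (insert x Q)) (by
        have h0 := (meas_hh hD hM hS th n v w).comp
          (show Measurable fun q : Eu d × Cfg (Eu d) => (x, q.1, cc (x, q.2)) by fun_prop)
        have e : (fun q : Eu d × Cfg (Eu d) => hh th n v w x q.1 (insert x (pt q.2))) =
            (fun q : Eu d × Eu d × Cfg (Eu d) => hh th n v w q.1 q.2.1 (pt q.2.2)) ∘
              (fun q : Eu d × Cfg (Eu d) => (x, q.1, cc (x, q.2))) := by
          funext q
          simp only [Function.comp]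
          rw [hcc2]
        rw [e]
        exact h0)).1
    calc ∫⁻ ω, ∑' y : (insert x (pt ω) : Set (Eu d)), hh th n v w x y (insert x (pt ω))
          ∂PL (leb lam (bal (0 : Eu d) L))
        ≤ ∫⁻ ω, ∑' y : (pt ω : Set (Eu d)), hh th n v w x y (insert x (pt ω))
          ∂PL (leb lam (bal (0 : Eu d) L)) := by
          refine lintegral_mono fun ω => ?_
          have h6 := ENNReal.tsum_union_le
            (fun y : Eu d => hh th n v w x y (insert x (pt ω))) {x} (pt ω)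
          rw [singleton_union] at h6
          refine h6.trans (le_of_eq ?_)
          rw [tsum_singleton x (fun y => hh th n v w x y (insert x (pt ω))), hdiag, zero_add]
      _ = ∫⁻ y, ∫⁻ ω, hh th n v w x y (insert x (insert y (pt ω)))
            ∂PL (leb lam (bal (0 : Eu d) L)) ∂(leb lam (bal (0 : Eu d) L)) := h4
      _ ≤ ∫⁻ y, ind (y ∈ bal w 1) * c ∂(leb lam (bal (0 : Eu d) L)) := by
          refine lintegral_mono fun y => ?_
          by_cases hy : y ∈ bal w 1
          · rw [ind_of hy, one_mul]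
            refine le_trans (lintegral_mono fun ω => ?_) (hc x hx y hy)
            unfold hh
            exact ind_mono fun h => GB_insert hSc th (pt ω) x y n h.2.2
          · rw [ind_not hy, zero_mul]
            refine le_of_eq ?_
            have : ∀ ω : Cfg (Eu d), hh th n v w x y (insert x (insert y (pt ω))) = 0 := by
              intro ω
              unfold hh
              exact ind_not fun h => hy h.2.1
            simp only [this, lintegral_zero]
      _ = (lam * volume (bal w 1)) * c := by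
          rw [lintegral_mul_ind (dom_bal w 1).1, lintegral_const, Measure.restrict_apply_univ,
            leb_bal lam hw]
          ring
  calc _ ≤ ∫⁻ x, ind (x ∈ bal v 1) * ((lam * volume (bal w 1)) * c)
          ∂(leb lam (bal (0 : Eu d) L)) := lintegral_mono h3
    _ = _ := by
        rw [lintegral_mul_ind (dom_bal v 1).1, lintegral_const, Measure.restrict_apply_univ,
          leb_bal lam hv]
        ring

/-- a bad pair of points of the process near `v` and `w` -/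
def pev (th : ℕ → ℝ) (n : ℕ) (v w : Eu d) (Q : Set (Eu d)) : Prop :=
  ∃ x ∈ Q, ∃ y ∈ Q, x ∈ bal v 1 ∧ y ∈ bal w 1 ∧ GB th n x y Q

variable {lam : ℝ≥0} {Ω : Type} [MeasurableSpace Ω] {Pr : Measure Ω} {T : Ω → Set (Eu d)}

theorem LawP.pev_le (h : LawP d lam Pr T) (hMe : MeckeStatement) (hD : InvDStatement)
    (hM : InvMStatement) (hS : MSumStatement) (hSc : InvScStatement) (hO : MOpsStatement)
    (hd : 1 ≤ d) {th : ℕ → ℝ} (hth : ∀ j, th j ≤ 2) {C' : ℝ} (hC' : 0 < C')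
    (hb : ∀ (x y : Eu d) (n : ℕ) (L : ℝ), 40 ≤ ‖x - y‖ → 2 * n + 4 + ‖x‖ ≤ L →
        2 * n + 4 + ‖y‖ ≤ L →
        ∫⁻ ω, ind (BadPair th x y n (pt ω)) ∂PL (leb lam (bal (0 : Eu d) L))
          ≤ ENNReal.ofReal (C' / ‖x - y‖))
    (v w : Eu d) (R : ℝ) (hR : 42 ≤ R) (hvw : R ≤ dist v w) (n : ℕ) :
    Pr {ω | pev th n v w (T ω)} ≤
      (lam * volume (bal v 1)) * ((lam * volume (bal w 1)) * ENNReal.ofReal (C' / (R - 2))) := by
  set L : ℝ := 2 * n + 5 + ‖v‖ + ‖w‖ with hL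
  have hn0 : (0 : ℝ) ≤ n := Nat.cast_nonneg n
  have hv0 := norm_nonneg v
  have hw0 := norm_nonneg w
  have bsub : ∀ (u : Eu d) (r : ℝ), ‖u‖ + r ≤ L → bal u r ⊆ bal 0 L := by
    intro u r hr z hz
    unfold bal at *
    rw [Metric.mem_closedBall] at *
    have h1 := dist_triangle z u 0
    rw [dist_zero_right u] at h1
    linarith
  have hnorm : ∀ (u x : Eu d), x ∈ bal u 1 → ‖x‖ ≤ ‖u‖ + 1 := by
    intro u x hx
    unfold bal at hx
    rw [Metric.mem_closedBall] at hx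
    have h1 := dist_triangle x u 0
    rw [dist_zero_right x, dist_zero_right u] at h1
    linarith
  have hxy : ∀ x ∈ bal v 1, ∀ y ∈ bal w 1, R - 2 ≤ ‖x - y‖ := by
    intro x hx y hy
    unfold bal at hx hy
    rw [Metric.mem_closedBall] at hx hy
    have h1 := dist_triangle v x w
    have h2 := dist_triangle x y w
    rw [dist_comm v x] at h1
    rw [← dist_eq_norm]
    linarith
  have hlaw := h.law (bal 0 L) (dom_bal 0 L) (hs th n v w) (meas_hs hD hM hS th n v w).2
  have key := hs_int hMe hD hM hS hSc hO hd lam th n v w L (ENNReal.ofReal (C' / (R - 2)))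
    (bsub v 1 (by linarith)) (bsub w 1 (by linarith)) (by linarith) (by
      intro x hx y hy
      have h1 := hxy x hx y hy
      refine (hb x y n L (by linarith) ?_ ?_).trans (ENNReal.ofReal_le_ofReal ?_)
      · have := hnorm v x hx
        linarith
      · have := hnorm w y hy
        linarith
      · exact div_le_div_of_nonneg_left hC'.le (by linarith) h1)
  rw [← hlaw.2] at key
  refine le_trans ?_ key
  calc Pr {ω | pev th n v w (T ω)} ≤ Pr {ω | 1 ≤ hs th n v w (T ω ∩ bal 0 L)} := by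
        apply measure_mono
        rintro ω ⟨x, hx, y, hy, hxv, hyw, g1, g2, g3⟩
        show 1 ≤ hs th n v w (T ω ∩ bal 0 L)
        have sv : bal v (2 * n + 3) ⊆ bal 0 L := bsub v _ (by linarith)
        have sw : bal w (2 * n + 3) ⊆ bal 0 L := bsub w _ (by linarith)
        have hx' : x ∈ T ω ∩ bal 0 L := ⟨hx, sv (self_mem n hxv)⟩
        have hy' : y ∈ T ω ∩ bal 0 L := ⟨hy, sw (self_mem n hyw)⟩
        have a1 := good_loc hD hth (h.lf ω) (lf_inter (h.lf ω) _)
          (cap (T ω) ((ball_sub hxv n).trans sv)).symm g1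
        have a2 := good_loc hD hth (h.lf ω) (lf_inter (h.lf ω) _)
          (cap (T ω) ((ball_sub hyw n).trans sw)).symm g2
        have hG : GB th n x y (T ω ∩ bal 0 L) := by
          refine ⟨a1.1, a2.1, ?_⟩
          rw [a1.2 n le_rfl, a2.2 n le_rfl]
          exact g3
        unfold hs
        calc (1 : ℝ≥0∞) = hh th n v w x y (T ω ∩ bal 0 L) := by
              unfold hh
              rw [ind_of ⟨hxv, hyw, hG⟩]
          _ ≤ ∑' y : (T ω ∩ bal 0 L : Set (Eu d)), hh th n v w x y (T ω ∩ bal 0 L) :=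
              ENNReal.le_tsum (f := fun y : (T ω ∩ bal 0 L : Set (Eu d)) =>
                hh th n v w x y (T ω ∩ bal 0 L)) ⟨y, hy'⟩
          _ ≤ _ := ENNReal.le_tsum (f := fun x : (T ω ∩ bal 0 L : Set (Eu d)) =>
                ∑' y : (T ω ∩ bal 0 L : Set (Eu d)), hh th n v w x y (T ω ∩ bal 0 L)) ⟨x, hx'⟩
    _ ≤ ∫⁻ ω, hs th n v w (T ω ∩ bal 0 L) ∂Pr := by
        have := mul_meas_ge_le_lintegral (μ := Pr) hlaw.1 1
        rwa [one_mul] at this

end PairEv

end Pool.Agent.Lib.MP_5349a4_pr.Hedge2
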